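import Pool.Agent.V5helper10.DRB.MainA

/-!
# Project DRB: `S_main`
-/

open Module Finset

set_option autoImplicit false

namespace Pool.Agent.V5helper10.DRB

open Pool.Agent.W544.K3

noncomputable section

variable {r : ℕ} (X : K3Type r)

theorem hT_lie (hL : S_lie) : ∀ x ∈ X.hT, ∀ y ∈ X.hT, x * y - y * x ∈ X.hT := by
  intro x hx y hy k t ht
  exact hL _ k (formR t) x y (hx k t ht) (hy k t ht)

/-- the inner product on `ℝ^r` built from one on `U` -/
def Pt (P : X.U →ₗ[ℝ] X.U →ₗ[ℝ] ℝ) : (Fin r → ℝ) →ₗ[ℝ] (Fin r → ℝ) →ₗ[ℝ] ℝ :=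
  P.compl₁₂ (pU X) (pU X) -
    (bilR X.B).compl₁₂ (LinearMap.id - X.U.subtype.comp (pU X))
      (LinearMap.id - X.U.subtype.comp (pU X))

theorem Pt_apply (P : X.U →ₗ[ℝ] X.U →ₗ[ℝ] ℝ) (v w : Fin r → ℝ) :
    Pt X P v w = P (pU X v) (pU X w) -
      bilR X.B (v - (pU X v : Fin r → ℝ)) (w - (pU X w : Fin r → ℝ)) := rfl

theorem dat (hL : S_lie) (hre : S_re) (hD : X.Deligne)
    (hI : CIrrOn (X.hT : Set (End ℝ (Fin r → ℝ))) X.U) : Dat (BU X) (hU X) (nU X) where
  sig := sig2_BU X
  skew := by
    rintro y ⟨Y, hY, hYy⟩ u v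
    have h := hT_skew X hY u v
    rw [hYy u, hYy v] at h
    exact h
  sub := by
    intro y hy
    exact ⟨ex X y, hy, fun u => ex_U X y u⟩
  lie := by
    rintro x ⟨A, hA, hAx⟩ y ⟨B, hB, hBy⟩
    refine ⟨A * B - B * A, hT_lie X hL A hA B hB, fun u => ?_⟩
    rw [LinearMap.sub_apply, LinearMap.sub_apply, Module.End.mul_apply, Module.End.mul_apply,
      Module.End.mul_apply, Module.End.mul_apply, hBy u, hAx u, hAx (y u), hBy (x u)]
    rfl
  ideal := by
    rintro x ⟨A, hA, hAx⟩ y hy
    rw [mem_nU]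
    have e : ex X (x * y - y * x) = A * ex X y - ex X y * A := by
      refine ext_UW X ?_ ?_
      · intro u
        rw [ex_U, LinearMap.sub_apply, LinearMap.sub_apply, Module.End.mul_apply,
          Module.End.mul_apply, Module.End.mul_apply, Module.End.mul_apply, ex_U, hAx u, ex_U,
          hAx (y u)]
        rfl
      · intro w hw
        rw [ex_W X _ hw, LinearMap.sub_apply, Module.End.mul_apply, Module.End.mul_apply,
          ex_W X _ hw, ex_W X _ (hT_W X hD hA hw), map_zero, sub_zero]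
    rw [e]
    exact hT_lie X hL A hA _ hy
  irr := by
    intro M hJ hOp
    set j : (X.U × X.U) →ₗ[ℝ] ((Fin r → ℝ) × (Fin r → ℝ)) :=
      X.U.subtype.prodMap X.U.subtype with hj
    have h1 := hI (M.map j) (by
      rintro _ ⟨p, _, rfl⟩
      exact ⟨p.1.2, p.2.2⟩) (by
      rintro _ ⟨p, hp, rfl⟩
      exact ⟨(-p.2, p.1), hJ p hp, rfl⟩) (by
      rintro Y hY _ ⟨p, hp, rfl⟩
      have hYU : ∀ u ∈ X.U, Y u ∈ X.U := fun u hu => hT_U X hD hY hu
      have hy : Y.restrict hYU ∈ hU X := ⟨Y, hY, fun u => rfl⟩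
      exact ⟨_, hOp _ hy p hp, rfl⟩)
    rcases h1 with h1 | h1
    · left
      rw [Submodule.eq_bot_iff]
      intro p hp
      have h2 : j p ∈ M.map j := Submodule.mem_map_of_mem hp
      rw [h1, Submodule.mem_bot] at h2
      have h3 := congrArg Prod.fst h2
      have h4 := congrArg Prod.snd h2
      exact Prod.ext (Subtype.ext h3) (Subtype.ext h4)
    · right
      rw [Submodule.eq_top_iff']
      intro p
      obtain ⟨q, hq, hqp⟩ := h1 p.1 p.1.2 p.2 p.2.2
      have e : q = p := by
        have h3 := congrArg Prod.fst hqp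
        have h4 := congrArg Prod.snd hqp
        exact Prod.ext (Subtype.ext h3) (Subtype.ext h4)
      rw [← e]
      exact hq
  re := by
    rintro P ⟨hPs, hPp⟩ y₁ y₂ hy₁ hy₂ hc ⟨Y, hY, hYy⟩
    rw [mem_nU]
    intro k t ht
    -- action of `Y`
    have hYpU : ∀ v, pU X (Y v) = (y₁ + y₂) (pU X v) := by
      intro v
      have e : v = (pU X v : Fin r → ℝ) + (v - (pU X v : Fin r → ℝ)) := by abel
      have h2 := hT_W X hD hY (dec X v)
      conv_lhs => rw [e, map_add, map_add, pU_W X h2, add_zero, hYy, pU_U]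
    have hYW : ∀ v, Y v - (pU X (Y v) : Fin r → ℝ) = Y (v - (pU X v : Fin r → ℝ)) := by
      intro v
      rw [hYpU, map_sub, hYy]
    have h1 : IsPos (Pt X P) := by
      constructor
      · intro u v
        rw [Pt_apply, Pt_apply, hPs, bilR_symm X.B X.symm]
      · intro u hu
        rw [Pt_apply]
        by_cases h0 : pU X u = 0
        · have h2 : u - (pU X u : Fin r → ℝ) ≠ 0 := by
            rw [h0]
            simpa using hu
          have h3 := Wp_neg X (dec X u) h2
          rw [h0] at h3 ⊢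
          simp only [map_zero, ZeroMemClass.coe_zero, sub_zero] at h3 ⊢
          linarith
        · have h2 := hPp _ h0
          by_cases h4 : u - (pU X u : Fin r → ℝ) = 0
          · rw [h4, map_zero, sub_zero]
            exact h2
          · have h3 := Wp_neg X (dec X u) h4
            linarith
    have h2 : SymOp (Pt X P) (ex X y₁) := by
      intro u v
      rw [Pt_apply, Pt_apply]
      have e1 : ∀ w, pU X (ex X y₁ w) = y₁ (pU X w) := by
        intro w
        rw [ex_apply, pU_U]
      rw [e1, e1, ex_apply, ex_apply, hy₁]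
      simp
    have h3 : Skew (Pt X P) (Y - ex X y₁) := by
      intro u v
      have e1 : ∀ w, pU X ((Y - ex X y₁) w) = y₂ (pU X w) := by
        intro w
        rw [LinearMap.sub_apply, map_sub, hYpU, ex_apply, pU_U, LinearMap.add_apply]
        abel
      have e2 : ∀ w, (Y - ex X y₁) w - (pU X ((Y - ex X y₁) w) : Fin r → ℝ) =
          Y (w - (pU X w : Fin r → ℝ)) := by
        intro w
        rw [e1, ← hYW, hYpU, LinearMap.sub_apply, ex_apply, LinearMap.add_apply]
        push_cast
        abel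
      rw [Pt_apply, Pt_apply, e2, e2, e1, e1]
      have h4 := hy₂ (pU X u) (pU X v)
      have h5 := hT_skew X hY (u - (pU X u : Fin r → ℝ)) (v - (pU X v : Fin r → ℝ))
      linarith
    have h4 : ex X y₁ * (Y - ex X y₁) = (Y - ex X y₁) * ex X y₁ := by
      refine ext_UW X ?_ ?_
      · intro u
        have e3 : (Y - ex X y₁) (u : Fin r → ℝ) = (y₂ u : Fin r → ℝ) := by
          rw [LinearMap.sub_apply, hYy, ex_U, LinearMap.add_apply]
          push_cast
          abel
        have e4 : (Y - ex X y₁) (y₁ u : Fin r → ℝ) = (y₂ (y₁ u) : Fin r → ℝ) := by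
          rw [LinearMap.sub_apply, hYy, ex_U, LinearMap.add_apply]
          push_cast
          abel
        rw [Module.End.mul_apply, Module.End.mul_apply, e3, ex_U, ex_U, e4]
        have h5 := LinearMap.congr_fun hc u
        rw [Module.End.mul_apply, Module.End.mul_apply] at h5
        rw [h5]
      · intro w hw
        rw [Module.End.mul_apply, Module.End.mul_apply, LinearMap.sub_apply, ex_W X _ hw, map_zero,
          sub_zero, ex_W X _ (hT_W X hD hY hw)]
    refine hre _ (Pt X P) h1 (ex X y₁) (Y - ex X y₁) h2 h3 h4 k (formR t) ?_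
    have e5 : ex X y₁ + (Y - ex X y₁) = Y := by abel
    rw [e5]
    exact hY k t ht

/-- `U` contains a negative vector -/
theorem exists_neg (hD : X.Deligne) (hI : CIrrOn (X.hT : Set (End ℝ (Fin r → ℝ))) X.U) :
    ∃ u ∈ X.U, bilR X.B u u < 0 := by
  by_contra hcon
  have hcon : ∀ u ∈ X.U, 0 ≤ bilR X.B u u := by
    intro u hu
    by_contra h
    exact hcon ⟨u, hu, lt_of_not_ge h⟩
  obtain ⟨h1, h2, h3⟩ := bil_omega X
  set p := re X.ω with hp
  set q := im X.ω with hq
  set β := bilR X.B p p with hβ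
  have hpU : p ∈ X.U := re_mem_U X
  have hqU : q ∈ X.U := im_mem_U X
  have h2' : bilR X.B q p = 0 := by rw [bilR_symm X.B X.symm, h2]
  -- `U` is spanned by `p` and `q`
  have hspan : ∀ u ∈ X.U, u = (bilR X.B u p / β) • p + (bilR X.B u q / β) • q := by
    intro u hu
    by_contra hne
    set u' := u - ((bilR X.B u p / β) • p + (bilR X.B u q / β) • q) with hu'
    have hu0 : u' ≠ 0 := sub_ne_zero.2 hne
    have hu'U : u' ∈ X.U := X.U.sub_mem hu (X.U.add_mem (X.U.smul_mem _ hpU) (X.U.smul_mem _ hqU))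
    have e1 : bilR X.B u' p = 0 := by
      rw [hu', map_sub, map_add, map_smul, map_smul, LinearMap.sub_apply, LinearMap.add_apply,
        LinearMap.smul_apply, LinearMap.smul_apply, h2', smul_eq_mul, smul_eq_mul, ← hβ]
      field_simp
      ring
    have e2 : bilR X.B u' q = 0 := by
      rw [hu', map_sub, map_add, map_smul, map_smul, LinearMap.sub_apply, LinearMap.add_apply,
        LinearMap.smul_apply, LinearMap.smul_apply, h2, smul_eq_mul, smul_eq_mul, ← h1]
      field_simp
      ring
    have e3 := neg_of_perp X u' hu0 e1 e2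
    exact absurd (hcon u' hu'U) (not_le.2 e3)
  -- elements of `hT` act on `U` as multiples of the rotation
  have hrot : ∀ y ∈ X.hT, ∃ s : ℝ, y p = s • q ∧ y q = -(s • p) := by
    intro y hy
    have hs := hT_skew X hy
    have f1 := hs p p
    have f2 := hs q q
    have f3 := hs p q
    rw [bilR_symm X.B X.symm p (y p)] at f1
    rw [bilR_symm X.B X.symm q (y q)] at f2
    rw [bilR_symm X.B X.symm p (y q)] at f3
    have f4 := hspan (y p) (hT_U X hD hy hpU)
    have f5 := hspan (y q) (hT_U X hD hy hqU)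
    have g1 : bilR X.B (y p) p = 0 := by linarith
    have g2 : bilR X.B (y q) q = 0 := by linarith
    have g3 : bilR X.B (y q) p = -bilR X.B (y p) q := by linarith
    refine ⟨bilR X.B (y p) q / β, ?_, ?_⟩
    · rw [g1, zero_div, zero_smul, zero_add] at f4
      exact f4
    · rw [g2, g3, zero_div, zero_smul, add_zero, neg_div, neg_smul] at f5
      exact f5
  let M : Submodule ℝ ((Fin r → ℝ) × (Fin r → ℝ)) :=
    { carrier := {z | ∃ a b : ℝ, z = (a • p - b • q, a • q + b • p)}
      zero_mem' := ⟨0, 0, by ext i <;> simp⟩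
      add_mem' := by
        rintro _ _ ⟨a, b, rfl⟩ ⟨c, d, rfl⟩
        refine ⟨a + c, b + d, ?_⟩
        ext i <;> simp <;> ring
      smul_mem' := by
        rintro e _ ⟨a, b, rfl⟩
        refine ⟨e * a, e * b, ?_⟩
        ext i <;> simp <;> ring }
  rcases hI M (by
      rintro _ ⟨a, b, rfl⟩
      exact ⟨X.U.sub_mem (X.U.smul_mem _ hpU) (X.U.smul_mem _ hqU),
        X.U.add_mem (X.U.smul_mem _ hqU) (X.U.smul_mem _ hpU)⟩) (by
      rintro _ ⟨a, b, rfl⟩
      refine ⟨-b, a, ?_⟩
      ext i <;> simp <;> ring) (by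
      rintro y hy _ ⟨a, b, rfl⟩
      obtain ⟨s, hs1, hs2⟩ := hrot y hy
      refine ⟨b * s, -(a * s), ?_⟩
      simp only [map_sub, map_add, map_smul, hs1, hs2]
      ext i <;> simp <;> ring) with h | h
  · have h4 : ((p, q) : (Fin r → ℝ) × (Fin r → ℝ)) ∈ M := ⟨1, 0, by simp⟩
    rw [h, Submodule.mem_bot] at h4
    have h5 : p = 0 := congrArg Prod.fst h4
    rw [hβ, h5, map_zero] at h3
    exact lt_irrefl _ h3
  · obtain ⟨a, b, hab⟩ := h p hpU 0 X.U.zero_mem
    have h5 : p = a • p - b • q := congrArg Prod.fst hab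
    have h6 : (0 : Fin r → ℝ) = a • q + b • p := congrArg Prod.snd hab
    have h7 := congrArg (fun v => bilR X.B p v) h5
    have h8 := congrArg (fun v => bilR X.B q v) h6
    simp only [map_sub, map_add, map_smul, smul_eq_mul, map_zero, h2, h2', mul_zero, sub_zero,
      add_zero, ← h1] at h7 h8
    have h9 : a = 0 := by
      have : a * β = 0 := h8.symm
      rcases mul_eq_zero.1 this with h | h
      · exact h
      · exact absurd h h3.ne'
    rw [h9, zero_mul] at h7
    exact h3.ne' h7

/-- a diagonalisable operator which is skew and preserves `W` vanishes on `W` -/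
theorem diag_W {x : End ℝ (Fin r → ℝ)} (hx : Diag x) (hs : Skew (bilR X.B) x)
    (hW : ∀ w ∈ Wp X, x w ∈ Wp X) : ∀ w ∈ Wp X, x w = 0 := by
  have h1 := Submodule.inf_iSup_genEigenspace (p := Wp X) (f := x) (k := 1) hW
  have h2 : (⨆ μ : ℝ, x.genEigenspace μ 1) = ⊤ := hx
  rw [h2, inf_top_eq] at h1
  intro w hw
  rw [h1] at hw
  have h3 : (⨆ μ, Wp X ⊓ (x.genEigenspace μ) 1) ≤ LinearMap.ker x := by
    refine iSup_le fun μ => ?_
    rintro v ⟨hv1, hv2⟩
    rw [LinearMap.mem_ker]
    have hv3 : x v = μ • v := End.mem_eigenspace_iff.1 hv2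
    by_cases hv0 : v = 0
    · rw [hv0, map_zero]
    · have h4 := Wp_neg X hv1 hv0
      have h5 := hs v v
      rw [hv3, map_smul, map_smul, LinearMap.smul_apply, smul_eq_mul] at h5
      have h6 : μ = 0 := by
        by_contra hμ
        have h7 : μ * bilR X.B v v = 0 := by linarith
        rcases mul_eq_zero.1 h7 with h | h
        · exact hμ h
        · linarith
      rw [hv3, h6, zero_smul]
  exact LinearMap.mem_ker.1 (h3 hw)

theorem t_main (hL : S_lie) (hre : S_re) (hlog : S_log) (hhyp : S_hyp) (hcore : S_core) :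
    S_main := by
  intro r X hR hE hD hM h5
  obtain ⟨hI, _⟩ := t_irr r X hR hE hD hM
  have hdat := dat X hL hre hD hI
  -- a nonzero diagonalisable element of `nU`
  have hne : ∃ x ∈ nU X, x ≠ 0 ∧ Diag x := by
    obtain ⟨g, hg1, hg2, α, β, hαβ, hgE⟩ := hhyp r X.hT (bilR X.B) X.U
      (fun y hy u hu => hT_U X hD hy hu) (bilR_symm X.B X.symm) (fun y hy => hT_skew X hy) hI
      ⟨_, re_mem_U X, (bil_omega X).2.2⟩ (exists_neg X hD hI)
    obtain ⟨x, hx1, hx2, hx3, hx4⟩ := hlog r g
    have hxT : x ∈ X.hT := by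
      intro k t ht
      exact hx2 k (formR t) (hg1 k (formR t) (fun y hy => hy k t ht))
    have hx0 := hx3 α β hgE hαβ
    have hxW := diag_W X hx1 (hT_skew X hxT) (fun w hw => hT_W X hD hxT hw)
    obtain ⟨x', hx's, hx'⟩ := skew_ex X (hT_skew X hxT) hxW
    refine ⟨x', ?_, ?_, ?_⟩
    · rw [mem_nU, ← hx']
      exact hxT
    · intro h
      apply hx0
      rw [hx', h]
      apply LinearMap.ext
      intro v
      rw [ex_apply]
      simp
    · -- the restriction is diagonalisable
      have hst : ∀ u ∈ X.U, x u ∈ X.U := fun u hu => hT_U X hD hxT hu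
      have e : x' = x.restrict hst := by
        apply LinearMap.ext
        intro u
        apply Subtype.ext
        rw [LinearMap.restrict_apply]
        show (x' u : Fin r → ℝ) = x u
        rw [hx', ex_U]
      rw [e]
      have h1 : (⨆ μ : ℝ, x.genEigenspace μ 1) = ⊤ := hx1
      exact Module.End.genEigenspace_restrict_eq_top hst h1
  have hc := hcore X.U (BU X) (hU X) (nU X) hdat h5 hne
  intro y hys hyW
  obtain ⟨y', hy's, hy'⟩ := skew_ex X hys hyW
  rw [hy']
  exact hc y' hy's

end

end Pool.Agent.V5helper10.DRB
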