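import Pool.Agent.V5helper19.DRB.CLOS
import Pool.Agent.V5helper6.DRB.COMP
import Pool.Agent.V5helper5.DRB.CORE
import Pool.Agent.V5helper6.DRB.DENS
import Pool.Agent.V5helper40.DRB.EQ
import Pool.Agent.V5helper68.DRB.EXP
import Pool.Agent.V5helper19.DRB.GRADE
import Pool.Agent.V5helper5.DRB.HYP
import Pool.Agent.V5helper79.DRB.INNER
import Pool.Agent.V5helper68.DRB.LIE
import Pool.Agent.V5helper5.DRB.LOG
import Pool.Agent.V5helper79.DRB.LOGQ
import Pool.Agent.V5helper5.DRB.LOGT
import Pool.Agent.V5helper40.DRB.NE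
import Pool.Agent.V5helper40.DRB.NEM
import Pool.Agent.V5helper40.DRB.NEY
import Pool.Agent.V5helper68.DRB.RE
import Pool.Agent.V5helper68.DRB.REH
import Pool.Agent.V5helper11.DRB.RK
import Pool.Agent.V5helper11.DRB.STRUCT
import Pool.Agent.V5helper6.DRB.TR
import Pool.Agent.V5helper10.DRB.MainB
import Pool.Agent.W417.K3.FftB
import Pool.Agent.W565.K3.Ext

/-!
# Project DRB: assembly for powers of one K3 surface
-/

open Module Finset

set_option autoImplicit false

namespace Pool.Agent.V5helper10.DRB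

open Pool.Agent.W544.K3

theorem a_grade : S_grade := V5helper19.DRB.t_GRADE
theorem a_clos : S_clos := V5helper19.DRB.t_CLOS a_grade
theorem a_comp : S_comp :=
  V5helper6.DRB.t_COMP V5helper6.DRB.t_TR V5helper6.DRB.t_DENS V5helper79.DRB.t_INNER
theorem a_exp : S_exp := V5helper68.DRB.t_EXP
theorem a_hyp : S_hyp := V5helper5.DRB.t_HYP a_exp a_comp
theorem a_log : S_log := V5helper5.DRB.t_LOG V5helper79.DRB.t_LOGQ V5helper5.DRB.t_LOGT
theorem a_struct : S_struct := V5helper11.DRB.t_STRUCT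
theorem a_rk : S_rk := V5helper11.DRB.t_RK a_clos
theorem a_reH : S_reH := V5helper68.DRB.t_REH
theorem a_eq : S_eq := V5helper40.DRB.t_EQ a_clos a_reH
theorem a_neY : S_neY := V5helper40.DRB.t_NEY a_clos
theorem a_neM : S_neM := V5helper40.DRB.t_NEM a_clos
theorem a_ne : S_ne := V5helper40.DRB.t_NE a_reH a_neY a_neM
theorem a_core : S_core := V5helper5.DRB.t_CORE a_struct a_rk a_eq a_ne
theorem a_main : S_main := t_main V5helper68.DRB.t_LIE V5helper68.DRB.t_RE a_log a_hyp a_core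

/-- de Rham-Betti classes on all powers are Hodge classes -/
theorem powers_hodge {r : ℕ} (X : K3Type r) (hR : X.Reductive) (hE : X.EndHodge)
    (hD : X.Deligne) (hM : X.RealMult) (h5 : finrank ℝ X.U ≠ 5) (s m : ℕ)
    (t : (Fin m → Fin s ⊕ Fin r) → ℚ) (ht : X.IsDRB' t) : X.IsHodge' t :=
  (V5helper10.DRB.t_hodge r X (a_main r X hR hE hD hM h5) |> (W565.K3.ext r s X).1) m t ht

theorem U_top {r : ℕ} (X : K3Type r) (hQ : ∀ P, X.HodgeEnd P → ∃ c : ℚ, P = c • 1) :
    X.U = ⊤ := by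
  rw [Submodule.eq_top_iff']
  intro v P hP c hc i
  obtain ⟨q, rfl⟩ := hQ P hP
  have h1 : app (q • (1 : Matrix (Fin r) (Fin r) ℚ)) X.ω = (q : ℂ) • X.ω := by
    funext a
    unfold app
    rw [Finset.sum_eq_single a]
    · simp
    · intro j _ hj
      simp [Matrix.one_apply_ne (Ne.symm hj)]
    · intro h
      exact absurd (Finset.mem_univ _) h
  have h2 : X.ω ≠ 0 := by
    intro h
    have := X.pos
    rw [h] at this
    simp [bil] at this
  have h3 : (c : ℂ) = (q : ℂ) := by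
    rw [h1] at hc
    have h4 : ((q : ℂ) - (c : ℂ)) • X.ω = 0 := by rw [sub_smul, hc, sub_self]
    rcases smul_eq_zero.1 h4 with h | h
    · exact (sub_eq_zero.1 h).symm
    · exact absurd h h2
  have h4 : c = (q : ℝ) := by
    have : (c : ℂ) = ((q : ℝ) : ℂ) := by rw [h3]; simp
    exact_mod_cast this
  rw [Finset.sum_eq_single i]
  · rw [h4]
    simp
  · intro j _ hj
    simp [Matrix.one_apply_ne (Ne.symm hj)]
  · intro h
    exact absurd (Finset.mem_univ _) h

theorem det_ne {r : ℕ} (X : K3Type r) : X.B.det ≠ 0 := by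
  intro h0
  obtain ⟨v, hv, hv0⟩ := Matrix.exists_mulVec_eq_zero_iff.2 h0
  have h1 : (fun i => (v i : ℝ)) = (0 : Fin r → ℝ) := by
    apply nondeg X
    intro w
    rw [bilR_symm X.B X.symm, bilR_apply]
    refine Finset.sum_eq_zero fun i _ => ?_
    have h2 : ∑ j, X.B i j * v j = 0 := congrFun hv0 i
    have h3 : ((∑ j, X.B i j * v j : ℚ) : ℝ) = 0 := by rw [h2, Rat.cast_zero]
    push_cast at h3
    simp only [mul_assoc]
    rw [← Finset.mul_sum, h3, mul_zero]
  apply hv
  funext i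
  have := congrFun h1 i
  simpa using this

theorem app_scalar {r : ℕ} (q : ℚ) (u : Fin r → ℂ) :
    app (q • (1 : Matrix (Fin r) (Fin r) ℚ)) u = (q : ℂ) • u := by
  funext a
  unfold app
  rw [Finset.sum_eq_single a]
  · simp
  · intro j _ hj
    simp [Matrix.one_apply_ne (Ne.symm hj)]
  · intro h
    exact absurd (Finset.mem_univ _) h

theorem deligne_of_scalar {r : ℕ} (X : K3Type r) (hQ : ∀ P, X.HodgeEnd P → ∃ c : ℚ, P = c • 1) :
    X.Deligne := by
  intro P hP i j
  obtain ⟨q, rfl⟩ := hQ P hP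
  rw [app_scalar, bil_smul_left]
  exact IsAlgebraic.mul (isAlgebraic_algebraMap q) (X.alg i j)

theorem realMult_of_scalar {r : ℕ} (X : K3Type r)
    (hQ : ∀ P, X.HodgeEnd P → ∃ c : ℚ, P = c • 1) : X.RealMult := by
  intro P hP u v
  obtain ⟨q, rfl⟩ := hQ P hP
  rw [app_scalar, app_scalar, bil_smul_left, bil_smul_right]

theorem finrank_of_scalar {r : ℕ} (X : K3Type r) (hQ : ∀ P, X.HodgeEnd P → ∃ c : ℚ, P = c • 1)
    (h5 : r ≠ 5) : finrank ℝ X.U ≠ 5 := by
  rw [U_top X hQ, finrank_top]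
  simpa using h5

/-- if all Hodge endomorphisms are scalars, de Rham-Betti classes in low degree are algebraic -/
theorem powers_both {r : ℕ} (X : K3Type r) (hR : X.Reductive) (hE : X.EndHodge)
    (hQ : ∀ P, X.HodgeEnd P → ∃ c : ℚ, P = c • 1) (h5 : r ≠ 5) (s m : ℕ)
    (t : (Fin m → Fin s ⊕ Fin r) → ℚ) (ht : X.IsDRB' t)
    (hd : ∀ I, t I ≠ 0 → (univ.filter fun j => (I j).isRight = true).card < r) :
    X.IsHodge' t ∧ t ∈ X.algClasses s m := by
  have hD := deligne_of_scalar X hQ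
  have hM := realMult_of_scalar X hQ
  have hU := U_top X hQ
  have h5' := finrank_of_scalar X hQ h5
  refine ⟨powers_hodge X hR hE hD hM h5' s m t ht, ?_⟩
  have hmain := a_main r X hR hE hD hM h5'
  refine (W565.K3.ext r s X).2 ?_ m t ht hd
  intro k hk t' ht'
  refine W417.K3.Fft.fft r k hk X.B X.symm (det_ne X) t' ?_
  intro y hy
  refine hmain y hy ?_ k t' ht'
  intro v hv
  have : v = 0 := by
    apply nondeg X
    intro w
    rw [bilR_symm X.B X.symm]
    exact hv w (by rw [hU]; exact Submodule.mem_top)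
  rw [this, map_zero]

end Pool.Agent.V5helper10.DRB
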