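import Mathlib
import Pool.Agent.W544.K3.Defs3
import Pool.Agent.W565.K3.Ext

/-!
# EXT2 : de Rham-Betti classes on products of K3 surfaces, with the algebraic part of `H^2`

The statement `S_ext2` of `W544/K3/Defs3.lean` is false for `N = 0` (no function `Fin m → Fin 0`),
so the second part is proved for `N ≠ 0`.
-/

open Module Finset

set_option linter.unusedSimpArgs false

namespace Pool.Agent.V5helper10.DRB

open Pool.Agent.W544.K3
open Pool.Agent.W565.K3.Ext

noncomputable section

namespace Ext2

variable {n N s m : ℕ}

/-- (1) -/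
theorem drb (X : Multi n N) (t : (Fin m → Fin s ⊕ Fin n) → ℚ) (ht : X.IsDRB' t)
    (q : Fin m → Option (Fin s)) : X.IsDRB (fun K => t (mk q K)) := by
  intro J
  have h := ht (mk q J)
  have key : (∑ I : Fin m → Fin s ⊕ Fin n, (t I : ℂ) * ∏ j, X.D' s (I j) (mk q J j)) =
      ∑ K : Fin (A q).card → Fin n, (t (mk q K) : ℂ) * ∏ i, X.D (K i) (J i) := by
    rw [Pool.Agent.W565.K3.Ext.sum_mk, Finset.sum_eq_single q]
    · refine Finset.sum_congr rfl fun K _ => ?_
      congr 1
      rw [prod_split q, Finset.prod_eq_one, one_mul]
      · refine Finset.prod_congr rfl fun i _ => ?_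
        rw [mk_ee, mk_ee]
        rfl
      · intro j hj
        rw [Finset.mem_filter] at hj
        obtain ⟨a, ha⟩ := Option.ne_none_iff_exists'.1 hj.2
        rw [mk_some K ha, mk_some J ha]
        unfold Multi.D'
        simp
    · intro q' _ hq'
      refine Finset.sum_eq_zero fun K _ => ?_
      have : ∃ j, q' j ≠ q j := by
        by_contra hcon
        push Not at hcon
        exact hq' (funext hcon)
      obtain ⟨j, hj⟩ := this
      rw [Finset.prod_eq_zero (Finset.mem_univ j), mul_zero]
      cases h1 : q' j with
      | some a =>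
        rw [mk_some K h1]
        cases h2 : q j with
        | some b =>
          rw [mk_some J h2]
          have hab : a ≠ b := by
            intro hab
            apply hj
            rw [h1, h2, hab]
          unfold Multi.D'
          simp [hab]
        | none =>
          rw [mk_none J h2]
          unfold Multi.D'
          simp
      | none =>
        rw [mk_none K h1]
        cases h2 : q j with
        | some b =>
          rw [mk_some J h2]
          unfold Multi.D'
          simp
        | none =>
          exact absurd (h1.trans h2.symm) hj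
    · intro h0
      exact absurd (Finset.mem_univ _) h0
  rw [key] at h
  exact h

theorem hodge (X : Multi n N) (H : ∀ (k : ℕ) (t : (Fin k → Fin n) → ℚ), X.IsDRB t → X.IsHodge t)
    (t : (Fin m → Fin s ⊕ Fin n) → ℚ) (ht : X.IsDRB' t) : X.IsHodge' t := by
  intro v p hv hp
  rw [ev_mk]
  refine Finset.sum_eq_zero fun q _ => ?_
  by_cases h0 : ∃ j, q j ≠ none ∧ p j ≠ 0
  · obtain ⟨j, hj, hpj⟩ := h0
    rw [Finset.prod_eq_zero (Finset.mem_filter.2 ⟨Finset.mem_univ j, hj⟩), zero_mul]
    obtain ⟨a, ha⟩ := Option.ne_none_iff_exists'.1 hj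
    rw [ha]
    simp only [Option.elim_some, Sum.elim_inl]
    rcases hv j with ⟨-, i, h1⟩ | ⟨-, i, h1⟩ | ⟨h1, -⟩
    · rw [h1]; rfl
    · rw [h1]; rfl
    · exact absurd h1 hpj
  · push Not at h0
    have h1 : ∑ i : Fin (A q).card, p (ee q i) ≠ 0 := by
      rw [sum_split q, Finset.sum_eq_zero (fun j hj => h0 j (Finset.mem_filter.1 hj).2),
        zero_add] at hp
      exact hp
    have h2 := H _ _ (drb X t ht q) (fun i => fun b => v (ee q i) (Sum.inr b))
      (fun i => p (ee q i)) (fun i => by
        rcases hv (ee q i) with ⟨h3, i', h4⟩ | ⟨h3, i', h4⟩ | ⟨h3, h4⟩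
        · left
          exact ⟨h3, i', by rw [h4]; rfl⟩
        · right; left
          exact ⟨h3, i', by rw [h4]; rfl⟩
        · right; right
          exact ⟨h3, h4⟩) h1
    rw [h2, mul_zero]

/-- the transported index function -/
def kp (q : Fin m → Option (Fin s)) (κ : Fin (A q).card → Fin N) (i₀ : Fin N) : Fin m → Fin N :=
  fun j => if h : q j = none then κ ((ee q).symm ⟨j, (mem_A q j).2 h⟩) else i₀

theorem kp_ee (q : Fin m → Option (Fin s)) (κ : Fin (A q).card → Fin N) (i₀ : Fin N)
    (i : Fin (A q).card) : kp q κ i₀ (ee q i) = κ i := by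
  unfold kp
  rw [dif_pos (q_ee i)]
  simp

theorem blk'_inl_left (X : Multi n N) (i : Fin N) (a : Fin s) (z : Fin s ⊕ Fin n) :
    X.blk' s i (Sum.inl a) z = 0 := by
  cases z <;> rfl

theorem blk'_inl_right (X : Multi n N) (i : Fin N) (a : Fin s) (z : Fin s ⊕ Fin n) :
    X.blk' s i z (Sum.inl a) = 0 := by
  cases z <;> rfl

theorem alg_gen (X : Multi n N) (i₀ : Fin N) (q : Fin m → Option (Fin s))
    (σ : Fin (A q).card → Fin (A q).card) (κ : Fin (A q).card → Fin N)
    (h1 : ∀ j, σ (σ j) = j) (h2 : ∀ j, σ j ≠ j)
    (t : (Fin (A q).card → Fin n) → ℚ)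
    (ht : ∀ I, t I = ∏ j with j < σ j, X.blk (κ j) (I j) (I (σ j))) :
    Φ q t ∈ X.algClasses s m := by
  apply Submodule.subset_span
  refine ⟨sg q σ, fun j a => if q j = some a then 1 else 0, kp q κ i₀, ?_, ?_⟩
  · intro j
    cases hj : q j with
    | none =>
      obtain ⟨i, rfl⟩ := exists_ee hj
      rw [sg_ee, sg_ee, h1]
    | some a =>
      have h := sg_some σ (j := j) (by rw [hj]; simp)
      rw [h, h]
  · intro I
    by_cases hI : pat I = q
    · obtain ⟨K, rfl⟩ := exists_mk I hI
      rw [Φ_mk, ht]
      have p1 : ∏ j with sg q σ j = j, Sum.elim (fun a => if q j = some a then (1 : ℚ) else 0)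
          (fun _ => 0) (mk q K j) = 1 := by
        refine Finset.prod_eq_one fun j hj => ?_
        rw [Finset.mem_filter] at hj
        cases hq : q j with
        | none =>
          obtain ⟨i, rfl⟩ := exists_ee hq
          have := hj.2
          rw [sg_ee] at this
          exact absurd ((ee q).injective (Subtype.ext this)) (h2 i)
        | some a =>
          rw [mk_some K hq]
          simp
      rw [p1, one_mul]
      -- the product over pairs
      refine Finset.prod_nbij (fun i => (ee q i : Fin m)) ?_ ?_ ?_ ?_
      · intro i hi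
        rw [Finset.mem_filter] at hi ⊢
        refine ⟨Finset.mem_univ _, ?_⟩
        rw [sg_ee]
        exact (ee q).lt_iff_lt.2 hi.2
      · intro i _ i' _ h
        exact (ee q).injective (Subtype.ext h)
      · intro j hj
        rw [Finset.mem_coe, Finset.mem_filter] at hj
        cases hq : q j with
        | none =>
          obtain ⟨i, rfl⟩ := exists_ee hq
          refine ⟨i, ?_, rfl⟩
          rw [Finset.mem_coe, Finset.mem_filter]
          refine ⟨Finset.mem_univ _, ?_⟩
          have := hj.2
          rw [sg_ee] at this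
          exact (ee q).lt_iff_lt.1 this
        | some a =>
          have := hj.2
          rw [sg_some σ (by rw [hq]; simp)] at this
          exact absurd this (lt_irrefl _)
      · intro i _
        rw [sg_ee, mk_ee, mk_ee, kp_ee]
        rfl
    · rw [Φ_zero q t I hI]
      have : ∃ j, pat I j ≠ q j := by
        by_contra hcon
        push Not at hcon
        exact hI (funext hcon)
      obtain ⟨j, hj⟩ := this
      symm
      cases hq : q j with
      | some a =>
        apply mul_eq_zero_of_left
        have hfix : sg q σ j = j := sg_some σ (by rw [hq]; simp)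
        apply Finset.prod_eq_zero (i := j) (by
          rw [Finset.mem_filter]
          exact ⟨Finset.mem_univ j, hfix⟩)
        rw [hq] at hj
        cases hIj : I j with
        | inl b =>
          unfold pat at hj
          rw [hIj] at hj
          simp only [Sum.elim_inl, ne_eq, Option.some.injEq] at hj
          simp only [Sum.elim_inl, hq, Option.some.injEq]
          rw [if_neg (fun h => hj h.symm)]
        | inr b => rfl
      | none =>
        obtain ⟨i, rfl⟩ := exists_ee hq
        have hb : ∃ b, I (ee q i) = Sum.inl b := by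
          unfold pat at hj
          rw [hq] at hj
          cases hIj : I (ee q i) with
          | inl b => exact ⟨b, rfl⟩
          | inr b => rw [hIj] at hj; simp at hj
        obtain ⟨b, hb⟩ := hb
        apply mul_eq_zero_of_right
        rcases lt_or_gt_of_ne (h2 i) with h3 | h3
        · -- σ i < i
          apply Finset.prod_eq_zero (i := (ee q (σ i) : Fin m))
          · rw [Finset.mem_filter]
            refine ⟨Finset.mem_univ _, ?_⟩
            rw [sg_ee, h1]
            exact (ee q).lt_iff_lt.2 h3
          · rw [sg_ee, h1, hb]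
            exact blk'_inl_right X _ b _
        · apply Finset.prod_eq_zero (i := (ee q i : Fin m))
          · rw [Finset.mem_filter]
            refine ⟨Finset.mem_univ _, ?_⟩
            rw [sg_ee]
            exact (ee q).lt_iff_lt.2 h3
          · rw [sg_ee, hb]
            exact blk'_inl_left X _ b _

theorem card_c (X : Multi n N) (q : Fin m → Option (Fin s)) (K : Fin (A q).card → Fin n)
    (i : Fin N) :
    (univ.filter fun j => ∃ a, mk q K j = Sum.inr a ∧ X.c a = i).card =
      (univ.filter fun j => X.c (K j) = i).card := by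
  symm
  refine Finset.card_bij (fun j _ => (ee q j : Fin m)) ?_ ?_ ?_
  · intro j hj
    rw [Finset.mem_filter] at hj ⊢
    exact ⟨Finset.mem_univ _, K j, mk_ee K j, hj.2⟩
  · intro j _ j' _ h
    exact (ee q).injective (Subtype.ext h)
  · intro j hj
    rw [Finset.mem_filter] at hj
    obtain ⟨-, a, ha, hc⟩ := hj
    cases hq : q j with
    | none =>
      obtain ⟨j', rfl⟩ := exists_ee hq
      refine ⟨j', ?_, rfl⟩
      rw [mk_ee] at ha
      rw [Finset.mem_filter]
      refine ⟨Finset.mem_univ _, ?_⟩
      rw [Sum.inr_injective ha]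
      exact hc
    | some b =>
      rw [mk_some K hq] at ha
      exact absurd ha (by simp)

theorem alg (X : Multi n N) (i₀ : Fin N)
    (H : ∀ (k : ℕ) (t : (Fin k → Fin n) → ℚ), X.IsDRB t →
      (∀ I, t I ≠ 0 → ∀ i, (univ.filter fun j => X.c (I j) = i).card < X.rk i) → t ∈ X.pairs k)
    (t : (Fin m → Fin s ⊕ Fin n) → ℚ) (ht : X.IsDRB' t)
    (hs : ∀ I, t I ≠ 0 → ∀ i, (univ.filter fun j => ∃ a, I j = Sum.inr a ∧ X.c a = i).card <
        X.rk i) :
    t ∈ X.algClasses s m := by
  rw [t_eq t]
  refine Submodule.sum_mem _ fun q _ => ?_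
  have h1 := H _ _ (drb X t ht q) (fun K hK i => by
    have := hs _ hK i
    rw [card_c] at this
    exact this)
  refine Submodule.span_induction (p := fun u _ => Φ q u ∈ X.algClasses s m) ?_ ?_ ?_ ?_ h1
  · rintro u ⟨σ, κ, h2, h3, h4⟩
    exact alg_gen X i₀ q σ κ h2 h3 u h4
  · rw [map_zero]
    exact Submodule.zero_mem _
  · intro u u' _ _ h2 h3
    rw [map_add]
    exact Submodule.add_mem _ h2 h3
  · intro c u _ h2
    rw [map_smul]
    exact Submodule.smul_mem _ _ h2

end Ext2

end

end Pool.Agent.V5helper10.DRB
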