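import Pool.Agent.V5helper10.DRB.MultiA

/-!
# Project DRB: `S_main2`
-/

open Module Finset

set_option autoImplicit false

namespace Pool.Agent.V5helper10.DRB

open Pool.Agent.W544.K3

noncomputable section

variable {n N : ℕ} (X : Multi n N)

theorem hT_lieM (hL : S_lie) : ∀ x ∈ X.hT, ∀ y ∈ X.hT, x * y - y * x ∈ X.hT := by
  intro x hx y hy k t ht
  exact hL _ k (formR t) x y (hx k t ht) (hy k t ht)

theorem nondegM (w : Fin n → ℝ) (h : ∀ v, bilR X.B w v = 0) : w = 0 := by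
  by_contra h0
  have h1 : w ∈ WM X := by
    intro i u _
    rw [bilR_symm X.B X.symm]
    exact h u
  have h2 := WM_neg X h1 h0
  rw [h w] at h2
  exact lt_irrefl _ h2

/-- families of restrictions of the operators in `hT` -/
def gM : Submodule ℝ (∀ i, End ℝ (X.U i)) where
  carrier := {y | ∃ Y ∈ X.hT, ∀ i, ∀ u : X.U i, Y (u : Fin n → ℝ) = (y i u : Fin n → ℝ)}
  zero_mem' := ⟨0, X.hT.zero_mem, fun i u => by simp⟩
  add_mem' := by
    rintro a b ⟨A, hA, hA'⟩ ⟨B, hB, hB'⟩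
    exact ⟨A + B, X.hT.add_mem hA hB, fun i u => by
      rw [LinearMap.add_apply, hA' i u, hB' i u, Pi.add_apply, LinearMap.add_apply]
      rfl⟩
  smul_mem' := by
    rintro c a ⟨A, hA, hA'⟩
    exact ⟨c • A, X.hT.smul_mem c hA, fun i u => by
      rw [LinearMap.smul_apply, hA' i u, Pi.smul_apply, LinearMap.smul_apply]
      rfl⟩

/-- families whose extension by zero is in `hT` -/
def cM : Submodule ℝ (∀ i, End ℝ (X.U i)) where
  carrier := {y | exM X y ∈ X.hT}
  zero_mem' := by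
    have e : exM X (0 : ∀ i, End ℝ (X.U i)) = 0 := by
      apply LinearMap.ext
      intro v
      rw [exM_apply]
      simp
    show exM X 0 ∈ X.hT
    rw [e]
    exact X.hT.zero_mem
  add_mem' := by
    intro a b ha hb
    have e : exM X (a + b) = exM X a + exM X b := by
      apply LinearMap.ext
      intro v
      rw [LinearMap.add_apply, exM_apply, exM_apply, exM_apply, ← Finset.sum_add_distrib]
      rfl
    show exM X (a + b) ∈ X.hT
    rw [e]
    exact X.hT.add_mem ha hb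
  smul_mem' := by
    intro c a ha
    have e : exM X (c • a) = c • exM X a := by
      apply LinearMap.ext
      intro v
      rw [LinearMap.smul_apply, exM_apply, exM_apply, Finset.smul_sum]
      rfl
    show exM X (c • a) ∈ X.hT
    rw [e]
    exact X.hT.smul_mem c ha

theorem mem_cM {y : ∀ i, End ℝ (X.U i)} : y ∈ cM X ↔ exM X y ∈ X.hT := Iff.rfl

theorem cM_le : cM X ≤ gM X := fun y hy => ⟨exM X y, hy, fun i u => exM_U X y i u⟩

/-- the form on `U_i` -/
def BM (i : Fin N) : X.U i →ₗ[ℝ] X.U i →ₗ[ℝ] ℝ := (bilR X.B).domRestrict₁₂ (X.U i) (X.U i)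

theorem BM_apply (i : Fin N) (u v : X.U i) :
    BM X i u v = bilR X.B (u : Fin n → ℝ) (v : Fin n → ℝ) := rfl

theorem sig2_BM (i : Fin N) : Sig2 (BM X i) := by
  obtain ⟨h1, h2, h3⟩ := bil_omegaM X i
  refine ⟨fun u v => bilR_symm X.B X.symm _ _, ⟨_, re_mem_UM X i⟩, ⟨_, im_mem_UM X i⟩, h3, ?_,
    h2, ?_⟩
  · rw [BM_apply]
    rw [← h1]
    exact h3
  · intro v hv hp hq
    refine neg_blk X i _ v.2.1 ?_ hp hq
    intro h
    exact hv (Subtype.ext h)

/-- the facts on `hT` which are used -/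
structure IrrD : Prop where
  irr : ∀ i, CIrrOn (X.hT : Set (End ℝ (Fin n → ℝ))) (X.U i)
  skew : ∀ y ∈ X.hT, Skew (bilR X.B) y
  st : ∀ i, ∀ y ∈ X.hT, ∀ u ∈ X.U i, y u ∈ X.U i

variable {X}

theorem IrrD.stW (D : IrrD X) {y : End ℝ (Fin n → ℝ)} (hy : y ∈ X.hT) {w : Fin n → ℝ}
    (hw : w ∈ WM X) : y w ∈ WM X := by
  intro i u hu
  have h1 := D.skew y hy u w
  rw [hw i _ (D.st i y hy u hu), zero_add] at h1
  exact h1

/-- restrictions of an element of `hT` -/
def IrrD.res (D : IrrD X) {Y : End ℝ (Fin n → ℝ)} (hY : Y ∈ X.hT) (i : Fin N) : End ℝ (X.U i) :=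
  Y.restrict (D.st i Y hY)

theorem IrrD.res_apply (D : IrrD X) {Y : End ℝ (Fin n → ℝ)} (hY : Y ∈ X.hT) (i : Fin N)
    (u : X.U i) : (D.res hY i u : Fin n → ℝ) = Y (u : Fin n → ℝ) := rfl

theorem IrrD.res_g (D : IrrD X) {Y : End ℝ (Fin n → ℝ)} (hY : Y ∈ X.hT) :
    (fun i => D.res hY i) ∈ gM X := ⟨Y, hY, fun _ _ => rfl⟩

theorem IrrD.res_ex (D : IrrD X) {Y : End ℝ (Fin n → ℝ)} (hY : Y ∈ X.hT)
    (hW : ∀ w ∈ WM X, Y w = 0) : exM X (fun i => D.res hY i) = Y := by
  refine extM X ?_ ?_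
  · intro i u
    rw [exM_U]
    rfl
  · intro w hw
    rw [exM_W X _ hw, hW w hw]

theorem IrrD.res_c (D : IrrD X) {Y : End ℝ (Fin n → ℝ)} (hY : Y ∈ X.hT)
    (hW : ∀ w ∈ WM X, Y w = 0) : (fun i => D.res hY i) ∈ cM X := by
  rw [mem_cM, D.res_ex hY hW]
  exact hY

theorem g_skew (D : IrrD X) : ∀ y ∈ gM X, ∀ i, Skew (BM X i) (y i) := by
  rintro y ⟨Y, hY, hYy⟩ i u v
  have h := D.skew Y hY u v
  rw [hYy i u, hYy i v] at h
  exact h

theorem g_c (hL : S_lie) (D : IrrD X) : ∀ y ∈ gM X, ∀ z ∈ cM X,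
    (fun i => y i * z i - z i * y i) ∈ cM X := by
  rintro x ⟨A, hA, hAx⟩ y hy
  rw [mem_cM]
  have e : exM X (fun i => x i * y i - y i * x i) = A * exM X y - exM X y * A := by
    refine extM X ?_ ?_
    · intro i u
      rw [exM_U, LinearMap.sub_apply, LinearMap.sub_apply, Module.End.mul_apply,
        Module.End.mul_apply, Module.End.mul_apply, Module.End.mul_apply, exM_U, hAx i u, exM_U,
        hAx i (y i u)]
      rfl
    · intro w hw
      rw [exM_W X _ hw, LinearMap.sub_apply, Module.End.mul_apply, Module.End.mul_apply,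
        exM_W X _ hw, exM_W X _ (D.stW hA hw), map_zero, sub_zero]
  rw [e]
  exact hT_lieM X hL A hA _ hy

theorem g_lie (hL : S_lie) : ∀ y ∈ gM X, ∀ z ∈ gM X,
    (fun i => y i * z i - z i * y i) ∈ gM X := by
  rintro x ⟨A, hA, hAx⟩ y ⟨B, hB, hBy⟩
  refine ⟨A * B - B * A, hT_lieM X hL A hA B hB, fun i u => ?_⟩
  rw [LinearMap.sub_apply, LinearMap.sub_apply, Module.End.mul_apply, Module.End.mul_apply,
    Module.End.mul_apply, Module.End.mul_apply, hBy i u, hAx i u, hAx i (y i u), hBy i (x i u)]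
  rfl

/-- real parts of the elements of `hT` -/
theorem real_part (hG : S_reG) (D : IrrD X) {Y : End ℝ (Fin n → ℝ)} (hY : Y ∈ X.hT) :
    ∃ x ∈ X.hT, Diag x ∧ (∀ w ∈ WM X, x w = 0) ∧
    ∀ (E : Submodule ℝ (Fin n → ℝ)) (α : ℝ) (P : (Fin n → ℝ) →ₗ[ℝ] (Fin n → ℝ) →ₗ[ℝ] ℝ),
      (∀ v ∈ E, Y v ∈ E) → (∀ u v, P u v = P v u) → (∀ v ∈ E, v ≠ 0 → 0 < P v v) →
      (∀ u ∈ E, ∀ v ∈ E, P (Y u) v + P u (Y v) = 2 * α * P u v) → ∀ v ∈ E, x v = α • v := by
  obtain ⟨x, hx1, hx2, hx3, hx4⟩ := hG n Y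
  have hxT : x ∈ X.hT := fun k t ht => hx2 k (formR t) (hY k t ht)
  refine ⟨x, hxT, hx1, ?_, hx4⟩
  intro w hw
  have h1 := hx4 (WM X) 0 (-(bilR X.B)) (fun v hv => D.stW hY hv)
    (fun u v => by
      rw [LinearMap.neg_apply, LinearMap.neg_apply, LinearMap.neg_apply, LinearMap.neg_apply,
        bilR_symm X.B X.symm])
    (fun v hv h0 => by
      rw [LinearMap.neg_apply, LinearMap.neg_apply]
      have := WM_neg X hv h0
      linarith)
    (fun u hu v hv => by
      have := D.skew Y hY u v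
      simp only [LinearMap.neg_apply]
      linarith) w hw
  rw [h1, zero_smul]

/-- the restriction of a diagonalisable operator is diagonalisable -/
theorem res_diag (D : IrrD X) {x : End ℝ (Fin n → ℝ)} (hx : x ∈ X.hT) (hd : Diag x) (i : Fin N) :
    Diag (D.res hx i) := by
  have h1 : (⨆ μ : ℝ, x.genEigenspace μ 1) = ⊤ := hd
  exact Module.End.genEigenspace_restrict_eq_top (D.st i x hx) h1

/-- two operators agreeing on the eigenspaces of the diagonalisable operator `y` -/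
theorem eq_of_diag {V : Type} [AddCommGroup V] [Module ℝ V] {x y : End ℝ V} (hy : Diag y)
    (h : ∀ μ : ℝ, ∀ v ∈ End.eigenspace y μ, x v = μ • v) : x = y := by
  have h1 : (⨆ μ : ℝ, End.eigenspace y μ) ≤ LinearMap.eqLocus x y := by
    refine iSup_le fun μ v hv => ?_
    rw [LinearMap.mem_eqLocus, h μ v hv, End.mem_eigenspace_iff.1 hv]
  have h2 : (⨆ μ : ℝ, End.eigenspace y μ) = ⊤ := hy
  rw [h2] at h1
  apply LinearMap.ext
  intro v
  exact h1 (Submodule.mem_top : v ∈ ⊤)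

/-- the dot product -/
def dotB : (Fin n → ℝ) →ₗ[ℝ] (Fin n → ℝ) →ₗ[ℝ] ℝ :=
  LinearMap.mk₂ ℝ (fun u v => ∑ a, u a * v a)
    (by
      intro u u' v
      simp [add_mul, Finset.sum_add_distrib])
    (by
      intro c u v
      simp [Finset.mul_sum, mul_assoc])
    (by
      intro u v v'
      simp [mul_add, Finset.sum_add_distrib])
    (by
      intro c u v
      simp only [Pi.smul_apply, smul_eq_mul, Finset.mul_sum]
      exact Finset.sum_congr rfl fun a _ => by ring)

theorem dotB_apply (u v : Fin n → ℝ) : dotB u v = ∑ a, u a * v a := rfl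

theorem c_real (hG : S_reG) (D : IrrD X) :
    ∀ y ∈ cM X, ∃ x ∈ cM X, ∀ j, Diag (x j) ∧ (Diag (y j) → x j = y j) := by
  intro y hy
  obtain ⟨x, hx, hxd, hxW, hxE⟩ := real_part hG D ((mem_cM X).1 hy)
  refine ⟨_, D.res_c hx hxW, fun j => ⟨res_diag D hx hxd j, ?_⟩⟩
  intro hyd
  refine eq_of_diag hyd ?_
  intro μ v hv
  apply Subtype.ext
  rw [D.res_apply]
  refine hxE ((End.eigenspace (y j) μ).map (X.U j).subtype) μ dotB ?_ ?_ ?_ ?_ _
    (Submodule.mem_map_of_mem hv)
  · rintro _ ⟨u, hu, rfl⟩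
    refine ⟨μ • u, Submodule.smul_mem _ _ hu, ?_⟩
    rw [Submodule.subtype_apply, Submodule.subtype_apply, exM_U, End.mem_eigenspace_iff.1 hu]
  · intro u v
    rw [dotB_apply, dotB_apply]
    exact Finset.sum_congr rfl fun a _ => mul_comm _ _
  · intro u _ hu
    rw [dotB_apply]
    obtain ⟨a, ha⟩ := Function.ne_iff.1 hu
    refine Finset.sum_pos' (fun b _ => mul_self_nonneg _) ⟨a, Finset.mem_univ a, ?_⟩
    exact mul_self_pos.2 ha
  · rintro _ ⟨u, hu, rfl⟩ _ ⟨v, hv, rfl⟩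
    have e : ∀ w ∈ End.eigenspace (y j) μ, exM X y ((X.U j).subtype w) =
        μ • ((X.U j).subtype w) := by
      intro w hw
      rw [Submodule.subtype_apply, exM_U, End.mem_eigenspace_iff.1 hw]
      rfl
    rw [e u hu, e v hv, map_smul, map_smul, LinearMap.smul_apply, smul_eq_mul]
    ring

/-- the component Lie algebras -/
theorem datM (hL : S_lie) (hG : S_reG) (D : IrrD X) (i : Fin N) :
    Dat (BM X i) ((gM X).map (LinearMap.proj i)) ((cM X).map (LinearMap.proj i)) where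
  sig := sig2_BM X i
  skew := by
    rintro _ ⟨y, hy, rfl⟩
    exact g_skew D y hy i
  sub := Submodule.map_mono (cM_le X)
  lie := by
    rintro _ ⟨x, hx, rfl⟩ _ ⟨y, hy, rfl⟩
    exact ⟨_, g_lie hL x hx y hy, rfl⟩
  ideal := by
    rintro _ ⟨x, hx, rfl⟩ _ ⟨y, hy, rfl⟩
    exact ⟨_, g_c hL D x hx y hy, rfl⟩
  irr := by
    intro M hJ hOp
    set j : (X.U i × X.U i) →ₗ[ℝ] ((Fin n → ℝ) × (Fin n → ℝ)) :=
      (X.U i).subtype.prodMap (X.U i).subtype with hj
    have h1 := D.irr i (M.map j) (by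
      rintro _ ⟨p, _, rfl⟩
      exact ⟨p.1.2, p.2.2⟩) (by
      rintro _ ⟨p, hp, rfl⟩
      exact ⟨(-p.2, p.1), hJ p hp, rfl⟩) (by
      rintro Y hY _ ⟨p, hp, rfl⟩
      exact ⟨_, hOp _ ⟨_, D.res_g hY, rfl⟩ p hp, rfl⟩)
    rcases h1 with h1 | h1
    · left
      rw [Submodule.eq_bot_iff]
      intro p hp
      have h2 : j p ∈ M.map j := Submodule.mem_map_of_mem hp
      rw [h1, Submodule.mem_bot] at h2
      have h3 := congrArg Prod.fst h2
      have h4 := congrArg Prod.snd h2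
      exact Prod.ext (Subtype.ext h3) (Subtype.ext h4)
    · right
      rw [Submodule.eq_top_iff']
      intro p
      obtain ⟨q, hq, hqp⟩ := h1 p.1 p.1.2 p.2 p.2.2
      have e : q = p := by
        have h3 := congrArg Prod.fst hqp
        have h4 := congrArg Prod.snd hqp
        exact Prod.ext (Subtype.ext h3) (Subtype.ext h4)
      rw [← e]
      exact hq
  re := by
    rintro P hP y₁ y₂ hy₁ hy₂ hc ⟨y, ⟨Y, hY, hYy⟩, hyi⟩
    have hyi : y i = y₁ + y₂ := hyi
    obtain ⟨x, hx, hxd, hxW, hxE⟩ := real_part hG D hY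
    refine ⟨_, D.res_c hx hxW, ?_⟩
    show D.res hx i = y₁
    refine eq_of_diag (symm_diag P hP y₁ hy₁) ?_
    intro μ v hv
    apply Subtype.ext
    rw [D.res_apply]
    have hst : ∀ u ∈ End.eigenspace y₁ μ, y₂ u ∈ End.eigenspace y₁ μ := by
      intro u hu
      rw [End.mem_eigenspace_iff]
      have h1 := LinearMap.congr_fun hc u
      rw [Module.End.mul_apply, Module.End.mul_apply, End.mem_eigenspace_iff.1 hu, map_smul] at h1
      exact h1
    have hYu : ∀ u ∈ End.eigenspace y₁ μ, Y ((X.U i).subtype u) =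
        (X.U i).subtype (μ • u + y₂ u) := by
      intro u hu
      rw [Submodule.subtype_apply, hYy i u, hyi, LinearMap.add_apply, End.mem_eigenspace_iff.1 hu]
      rfl
    refine hxE ((End.eigenspace y₁ μ).map (X.U i).subtype) μ (P.compl₁₂ (pr X i) (pr X i))
      ?_ ?_ ?_ ?_ _ (Submodule.mem_map_of_mem hv)
    · rintro _ ⟨u, hu, rfl⟩
      rw [hYu u hu]
      exact Submodule.mem_map_of_mem (Submodule.add_mem _ (Submodule.smul_mem _ _ hu) (hst u hu))
    · intro u v
      exact hP.1 _ _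
    · rintro _ ⟨u, hu, rfl⟩ h0
      have e : (P.compl₁₂ (pr X i) (pr X i)) ((X.U i).subtype u) ((X.U i).subtype u) = P u u := by
        show P (pr X i (u : Fin n → ℝ)) (pr X i (u : Fin n → ℝ)) = P u u
        rw [pr_self]
      rw [e]
      exact hP.2 u (fun h => h0 (by rw [h, map_zero]))
    · rintro _ ⟨u, hu, rfl⟩ _ ⟨v, hv, rfl⟩
      rw [hYu u hu, hYu v hv]
      show P (pr X i ((μ • u + y₂ u : X.U i) : Fin n → ℝ)) (pr X i (v : Fin n → ℝ)) +
        P (pr X i (u : Fin n → ℝ)) (pr X i ((μ • v + y₂ v : X.U i) : Fin n → ℝ)) =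
        2 * μ * P (pr X i (u : Fin n → ℝ)) (pr X i (v : Fin n → ℝ))
      rw [pr_self, pr_self, pr_self, pr_self, map_add, map_add, map_smul, map_smul,
        LinearMap.add_apply, LinearMap.smul_apply, smul_eq_mul]
      have := hy₂ u v
      linarith

theorem exists_negM (i : Fin N) (h3 : 3 ≤ finrank ℝ (X.U i)) : ∃ u ∈ X.U i, bilR X.B u u < 0 := by
  let φ : X.U i →ₗ[ℝ] (Fin 2 → ℝ) :=
    LinearMap.pi ![((bilR X.B).flip (re (X.ω i))).comp (X.U i).subtype,
      ((bilR X.B).flip (im (X.ω i))).comp (X.U i).subtype]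
  have h1 : LinearMap.ker φ ≠ ⊥ := by
    intro h
    have h2 := LinearMap.finrank_le_finrank_of_injective (LinearMap.ker_eq_bot.1 h)
    simp at h2
    omega
  obtain ⟨v, hv, hv0⟩ := (Submodule.ne_bot_iff _).1 h1
  have h4 := congrFun (LinearMap.mem_ker.1 hv) 0
  have h5 := congrFun (LinearMap.mem_ker.1 hv) 1
  refine ⟨v, v.2, neg_blk X i v v.2.1 (fun h => hv0 (Subtype.ext h)) ?_ ?_⟩
  · simpa [φ] using h4
  · simpa [φ] using h5

theorem diag_WM (D : IrrD X) {x : End ℝ (Fin n → ℝ)} (hxT : x ∈ X.hT) (hx : Diag x) :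
    ∀ w ∈ WM X, x w = 0 := by
  have h1 := Submodule.inf_iSup_genEigenspace (p := WM X) (f := x) (k := 1)
    (fun w hw => D.stW hxT hw)
  have h2 : (⨆ μ : ℝ, x.genEigenspace μ 1) = ⊤ := hx
  rw [h2, inf_top_eq] at h1
  intro w hw
  rw [h1] at hw
  have h3 : (⨆ μ, WM X ⊓ (x.genEigenspace μ) 1) ≤ LinearMap.ker x := by
    refine iSup_le fun μ => ?_
    rintro v ⟨hv1, hv2⟩
    rw [LinearMap.mem_ker]
    have hv3 : x v = μ • v := End.mem_eigenspace_iff.1 hv2
    by_cases hv0 : v = 0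
    · rw [hv0, map_zero]
    · have h4 := WM_neg X hv1 hv0
      have h5 := D.skew x hxT v v
      rw [hv3, map_smul, map_smul, LinearMap.smul_apply, smul_eq_mul] at h5
      have h6 : μ = 0 := by
        by_contra hμ
        have h7 : μ * bilR X.B v v = 0 := by linarith
        rcases mul_eq_zero.1 h7 with h | h
        · exact hμ h
        · linarith
      rw [hv3, h6, zero_smul]
  exact LinearMap.mem_ker.1 (h3 hw)

theorem exists_diagM (hH : S_hyp2) (hG : S_log2) (D : IrrD X) (i : Fin N)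
    (h3 : 3 ≤ finrank ℝ (X.U i)) :
    ∃ x ∈ (cM X).map (LinearMap.proj i : (∀ i, End ℝ (X.U i)) →ₗ[ℝ] End ℝ (X.U i)),
      x ≠ 0 ∧ Diag x := by
  obtain ⟨g, hg, α, β, hαβ, u, hu, v, hv, huv, hgu, hgv⟩ := hH n X.hT (bilR X.B) (X.U i)
    (fun y hy u hu => D.st i y hy u hu) (bilR_symm X.B X.symm) D.skew (D.irr i)
    ⟨_, re_mem_UM X i, (bil_omegaM X i).2.2⟩ (exists_negM i h3)
  obtain ⟨x, hx1, hx2, hx3, hx4⟩ := hG n g
  have hxT : x ∈ X.hT := by
    intro k t ht
    exact hx2 k (formR t) (hg k (formR t) (fun y hy => hy k t ht))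
  have hxW := diag_WM D hxT hx1
  refine ⟨_, ⟨_, D.res_c hxT hxW, rfl⟩, ?_, res_diag D hxT hx1 i⟩
  intro h0
  have h0 : D.res hxT i = 0 := h0
  obtain ⟨e1, e2, e3⟩ := hx3 α β u v huv hgu hgv
  have hlog : Real.log (α ^ 2 + β ^ 2) / 2 ≠ 0 := by
    intro h
    have h1 : Real.log (α ^ 2 + β ^ 2) = 0 := by linarith
    rcases Real.log_eq_zero.1 h1 with h | h | h
    · linarith
    · exact hαβ h
    · linarith
  have hz : ∀ w ∈ X.U i, x w = 0 := by
    intro w hw
    have := congrArg (fun T : End ℝ (X.U i) => ((T ⟨w, hw⟩ : X.U i) : Fin n → ℝ)) h0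
    simpa [IrrD.res_apply] using this
  rw [hz u hu] at e1
  rw [hz v hv] at e2
  rcases huv with h | h
  · rcases smul_eq_zero.1 e1.symm with h' | h'
    · exact hlog h'
    · exact h h'
  · rcases smul_eq_zero.1 e2.symm with h' | h'
    · exact hlog h'
    · exact h h'

theorem t_main2 (hL : S_lie) (hG : S_reG) (hlog : S_log2) (hhyp : S_hyp2) (hcore : S_core)
    (hgour : S_gour) (hirr : S_irr2) (hind : S_ind2) : S_main2 := by
  intro n N X hR hE hD hM hdim
  have D : IrrD X := by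
    have h := hirr n N X hR hE hD hM
    rcases Nat.eq_zero_or_pos N with h0 | h0
    · subst h0
      refine ⟨fun i => i.elim0, ?_, fun i => i.elim0⟩
      intro y _ u v
      have hu : ∀ w : Fin n → ℝ, w = 0 := by
        intro w
        funext a
        exact (X.c a).elim0
      rw [hu u, hu v]
      simp
    · exact ⟨fun i => (h i).1, (h ⟨0, h0⟩).2.1, fun i => (h i).2.2⟩
  intro i y hys hyW
  have h1 : ∀ i, ∀ z, Skew (BM X i) z → ∃ y ∈ cM X, y i = z := by
    intro i z hz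
    have h2 := hcore (X.U i) (BM X i) _ _ (datM hL hG D i) (hdim i).2.2
      (exists_diagM hhyp hlog D i (hdim i).1) z hz
    obtain ⟨y, hy, hyz⟩ := h2
    exact ⟨y, hy, hyz⟩
  have h2 := hgour N (fun i => X.U i) (fun i => BM X i) (fun i => sig2_BM X i)
    (fun i => (hdim i).1) (fun i => (hdim i).2.1) (gM X) (cM X) (cM_le X) (g_skew D)
    (g_c hL D) h1 (c_real hG D) (by
      intro i j hij Ψ hΨ
      refine hind n N X hR hE hD hM i j hij Ψ ?_
      intro Y hY u u' huu'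
      have h3 := hΨ _ (D.res_g hY) u
      have e1 : D.res hY i u = u' := by
        apply Subtype.ext
        rw [D.res_apply]
        exact huu'
      rw [e1] at h3
      rw [← h3]
      rfl)
  -- the operator is the extension of its restriction to `U_i`
  have hyU : ∀ u ∈ X.U i, y u ∈ X.U i := by
    intro u _
    have h5 : y u - (pr X i (y u) : Fin n → ℝ) = 0 := by
      apply nondegM X
      intro v
      have e1 : v = (pr X i v : Fin n → ℝ) + (v - (pr X i v : Fin n → ℝ)) := by abel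
      have e2 := pr_dec X i (y u) _ (pr X i v).2
      have e3 := pr_dec X i v
      have e4 := hys u (v - (pr X i v : Fin n → ℝ))
      rw [hyW _ e3, map_zero, add_zero] at e4
      have e5 := e3 _ (pr X i (y u)).2
      have e6 : bilR X.B (y u - (pr X i (y u) : Fin n → ℝ)) (v - (pr X i v : Fin n → ℝ)) =
          bilR X.B (y u) (v - (pr X i v : Fin n → ℝ)) -
          bilR X.B (pr X i (y u) : Fin n → ℝ) (v - (pr X i v : Fin n → ℝ)) := by
        rw [← LinearMap.sub_apply, ← map_sub]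
      have e7 : bilR X.B (y u - (pr X i (y u) : Fin n → ℝ)) v =
          bilR X.B (y u - (pr X i (y u) : Fin n → ℝ)) (pr X i v : Fin n → ℝ) +
          bilR X.B (y u - (pr X i (y u) : Fin n → ℝ)) (v - (pr X i v : Fin n → ℝ)) := by
        rw [← map_add, ← e1]
      rw [e7, e6, e4, e5, bilR_symm X.B X.symm, e2]
      norm_num
    rw [sub_eq_zero.1 h5]
    exact (pr X i (y u)).2
  obtain ⟨z, hz, hzi, hz0⟩ := h2 i (y.restrict hyU) (fun u v => hys u v)
  have e : exM X z = y := by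
    refine extM X ?_ ?_
    · intro j u
      rw [exM_U]
      by_cases hj : j = i
      · subst hj
        rw [hzi]
        rfl
      · rw [hz0 j hj, hyW _ (fun v hv => U_orth X (Ne.symm hj) hv u.2)]
        rfl
    · intro w hw
      rw [exM_W X _ hw, hyW w (fun u hu => hw i u hu)]
  rw [← e]
  exact hz

end

end Pool.Agent.V5helper10.DRB
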