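import Pool.Agent.V5helper10.DRB.Base

/-!
# Project DRB: from the orthogonal Lie algebra to Hodge classes
-/

open Module Finset

set_option autoImplicit false

namespace Pool.Agent.V5helper10.DRB

open Pool.Agent.W544.K3

noncomputable section

variable {r : ℕ} (X : K3Type r)

theorem cj_eq (v : Fin r → ℂ) : cj v = oR (re v) - Complex.I • oR (im v) := by
  funext i
  simp only [cj, oR, re, im, Pi.sub_apply, Pi.smul_apply, smul_eq_mul]
  apply Complex.ext <;> simp

theorem bil_omega : bilR X.B (re X.ω) (re X.ω) = bilR X.B (im X.ω) (im X.ω) ∧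
    bilR X.B (re X.ω) (im X.ω) = 0 ∧ 0 < bilR X.B (re X.ω) (re X.ω) := by
  have h1 := X.iso
  have h2 := X.pos
  have h3 : bil X.B X.ω X.ω = ((bilR X.B (re X.ω) (re X.ω) - bilR X.B (im X.ω) (im X.ω) : ℝ) : ℂ) +
      ((2 * bilR X.B (re X.ω) (im X.ω) : ℝ) : ℂ) * Complex.I := by
    conv_lhs => rw [eq_re_im X.ω]
    rw [bil_add_left, bil_add_right, bil_add_right, bil_smul_left, bil_smul_right, bil_smul_left,
      bil_smul_right, bil_oR, bil_oR, bil_oR, bil_oR, bilR_symm X.B X.symm (im X.ω) (re X.ω)]
    push_cast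
    linear_combination (bilR X.B (im X.ω) (im X.ω) : ℂ) * Complex.I_mul_I
  have h4 : bil X.B X.ω (cj X.ω) =
      ((bilR X.B (re X.ω) (re X.ω) + bilR X.B (im X.ω) (im X.ω) : ℝ) : ℂ) := by
    rw [cj_eq]
    conv_lhs => rw [eq_re_im X.ω]
    have e1 : oR (re (oR (re X.ω) + Complex.I • oR (im X.ω))) -
        Complex.I • oR (im (oR (re X.ω) + Complex.I • oR (im X.ω))) =
        oR (re X.ω) + (-Complex.I) • oR (im X.ω) := by
      rw [← eq_re_im, neg_smul, sub_eq_add_neg]
    rw [e1]
    rw [bil_add_left, bil_add_right, bil_add_right, bil_smul_left, bil_smul_right, bil_smul_left,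
      bil_smul_right, bil_oR, bil_oR, bil_oR, bil_oR, bilR_symm X.B X.symm (im X.ω) (re X.ω)]
    push_cast
    linear_combination (-(bilR X.B (im X.ω) (im X.ω) : ℂ)) * Complex.I_mul_I
  rw [h3] at h1
  rw [h4] at h2
  have h5 := congrArg Complex.re h1
  have h6 := congrArg Complex.im h1
  simp only [Complex.add_re, Complex.ofReal_re, Complex.mul_re, Complex.ofReal_im, Complex.I_re,
    Complex.I_im, Complex.add_im, Complex.mul_im, Complex.zero_re, Complex.zero_im] at h5 h6
  rw [Complex.ofReal_re] at h2
  refine ⟨by linarith, by linarith, by linarith⟩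

theorem app_re (P : Matrix (Fin r) (Fin r) ℚ) (v : Fin r → ℂ) (i : Fin r) :
    (app P v i).re = ∑ j, (P i j : ℝ) * re v j := by
  simp only [app, Complex.re_sum, re]
  refine Finset.sum_congr rfl fun j _ => ?_
  rw [Complex.mul_re]
  simp

theorem app_im (P : Matrix (Fin r) (Fin r) ℚ) (v : Fin r → ℂ) (i : Fin r) :
    (app P v i).im = ∑ j, (P i j : ℝ) * im v j := by
  simp only [app, Complex.im_sum, im]
  refine Finset.sum_congr rfl fun j _ => ?_
  rw [Complex.mul_im]
  simp

theorem re_mem_U : re X.ω ∈ X.U := by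
  intro P _ c hc i
  rw [← app_re, hc]
  simp [re]

theorem im_mem_U : im X.ω ∈ X.U := by
  intro P _ c hc i
  rw [← app_im, hc]
  simp [im]

theorem toMatrix_mulVec_c (y : End ℝ (Fin r → ℝ)) (v : Fin r → ℂ) :
    ((LinearMap.toMatrix' y).map (fun a : ℝ => (a : ℂ))).mulVec v =
      oR (y (re v)) + Complex.I • oR (y (im v)) := by
  have h : ∀ w : Fin r → ℝ, ((LinearMap.toMatrix' y).map (fun a : ℝ => (a : ℂ))).mulVec (oR w) =
      oR (y w) := by
    intro w
    funext i
    have h1 : y w i = ∑ j, (LinearMap.toMatrix' y) i j * w j := by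
      conv_lhs => rw [← LinearMap.toMatrix'_mulVec y w]
      rfl
    simp only [oR, Matrix.mulVec, dotProduct, Matrix.map_apply, h1]
    push_cast
    rfl
  conv_lhs => rw [eq_re_im v]
  rw [Matrix.mulVec_add, Matrix.mulVec_smul, h, h]

theorem re_I_smul_add (a b : Fin r → ℝ) : re (oR a + Complex.I • oR b) = a := by
  funext i
  simp [re, oR]

theorem im_I_smul_add (a b : Fin r → ℝ) : im (oR a + Complex.I • oR b) = b := by
  funext i
  simp [im, oR]

theorem t_hodge : S_hodge := by
  intro r X hX k t ht v p hp hne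
  obtain ⟨h1, h2, h3⟩ := bil_omega X
  set P := re X.ω with hP
  set Q := im X.ω with hQ
  set Bf := bilR X.B with hB
  set β := Bf P P with hβ
  set y : End ℝ (Fin r → ℝ) := wedge Bf P Q with hy
  have hym : y ∈ X.hT := by
    refine hX y (wedge_skew Bf (bilR_symm X.B X.symm) P Q) ?_
    intro v hv
    rw [hy, wedge_apply, hv P (re_mem_U X), hv Q (im_mem_U X)]
    simp
  have hk : KilM ((LinearMap.toMatrix' y).map (fun a : ℝ => (a : ℂ))) (fun I => (t I : ℂ)) := by
    have h5 := ((kills_iff t y).1 (hym k t ht)).map Complex.ofRealHom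
    have e : (fun I => Complex.ofRealHom (t I : ℝ)) = fun I => ((t I : ℚ) : ℂ) := by
      funext I
      simp
    rw [e] at h5
    exact h5
  rw [kilM_iff] at hk
  have h6 := hk v
  -- the action on vectors of Hodge type `p`
  have h7 : ∀ j, ((LinearMap.toMatrix' y).map (fun a : ℝ => (a : ℂ))).mulVec (v j) =
      (-(Complex.I * β) * (p j : ℂ)) • v j := by
    intro j
    have yP : y P = β • Q := by
      rw [hy, wedge_apply, bilR_symm X.B X.symm Q P, h2]
      simp [hβ, hB]
    have yQ : y Q = -(β • P) := by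
      rw [hy, wedge_apply, h2, ← h1]
      simp [hβ, hB]
    rcases hp j with ⟨hj1, hj2⟩ | ⟨hj1, hj2⟩ | ⟨hj1, hj2, hj3⟩
    · rw [hj2, hj1, toMatrix_mulVec_c]
      rw [← hP, ← hQ, yP, yQ]
      funext i
      have e := congrFun (eq_re_im X.ω) i
      rw [← hP, ← hQ] at e
      rw [Pi.smul_apply, e]
      simp only [oR, Pi.add_apply, Pi.smul_apply, smul_eq_mul, Pi.neg_apply]
      push_cast
      linear_combination ((β : ℂ) * (Q i : ℂ)) * Complex.I_mul_I
    · rw [hj2, hj1, toMatrix_mulVec_c]
      have e1 : re (cj X.ω) = P := by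
        funext i
        simp [re, cj, hP]
      have e2 : im (cj X.ω) = -Q := by
        funext i
        simp [im, cj, hQ]
      rw [e1, e2, map_neg, yP, yQ]
      funext i
      have e := congrFun (cj_eq X.ω) i
      rw [← hP, ← hQ] at e
      rw [Pi.smul_apply, e]
      simp only [oR, Pi.add_apply, Pi.smul_apply, Pi.sub_apply, smul_eq_mul, neg_neg]
      push_cast
      linear_combination ((β : ℂ) * (Q i : ℂ)) * Complex.I_mul_I
    · rw [hj1, toMatrix_mulVec_c]
      have e1 : bil X.B (v j) (oR P) = 0 := by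
        have e3 : oR P = (1 / 2 : ℂ) • (X.ω + cj X.ω) := by
          rw [cj_eq]
          conv_rhs => rw [eq_re_im X.ω]
          funext i
          simp only [← hP, ← hQ, re_I_smul_add, im_I_smul_add, oR, Pi.add_apply, Pi.smul_apply,
            Pi.sub_apply, smul_eq_mul]
          ring
        rw [e3, bil_smul_right, bil_add_right, hj2, hj3]
        simp
      have e2 : bil X.B (v j) (oR Q) = 0 := by
        have e3 : oR Q = (1 / (2 * Complex.I) : ℂ) • (X.ω + (-1 : ℂ) • cj X.ω) := by
          rw [cj_eq]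
          conv_rhs => rw [eq_re_im X.ω]
          funext i
          simp only [← hP, ← hQ, re_I_smul_add, im_I_smul_add, oR, Pi.add_apply, Pi.smul_apply,
            Pi.sub_apply, smul_eq_mul]
          field_simp
          ring
        rw [e3, bil_smul_right, bil_add_right, bil_smul_right, hj2, hj3]
        simp
      have e4 : ∀ w : Fin r → ℝ, bil X.B (v j) (oR w) = 0 →
          Bf w (re (v j)) = 0 ∧ Bf w (im (v j)) = 0 := by
        intro w hw
        rw [eq_re_im (v j), bil_add_left, bil_smul_left, bil_oR, bil_oR] at hw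
        have f1 := congrArg Complex.re hw
        have f2 := congrArg Complex.im hw
        simp only [Complex.add_re, Complex.ofReal_re, Complex.mul_re, Complex.ofReal_im,
          Complex.I_re, Complex.I_im, Complex.add_im, Complex.mul_im, Complex.zero_re,
          Complex.zero_im] at f1 f2
        rw [hB, bilR_symm X.B X.symm w, bilR_symm X.B X.symm w]
        constructor <;> linarith
      obtain ⟨a1, a2⟩ := e4 P e1
      obtain ⟨a3, a4⟩ := e4 Q e2
      rw [hy, wedge_apply, wedge_apply, a1, a2, a3, a4]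
      funext i
      simp [oR]
  simp only [h7] at h6
  have h8 : ∀ j, evK (fun I => (t I : ℂ)) (Function.update v j
      ((-(Complex.I * β) * (p j : ℂ)) • v j)) = (-(Complex.I * β) * (p j : ℂ)) * ev t v := by
    intro j
    unfold evK ev
    rw [Finset.mul_sum]
    refine Finset.sum_congr rfl fun I _ => ?_
    rw [← Finset.mul_prod_erase _ _ (Finset.mem_univ j), Function.update_self,
      ← Finset.mul_prod_erase _ (fun i => v i (I i)) (Finset.mem_univ j)]
    have h2 : ∏ i ∈ univ.erase j, (Function.update v j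
        ((-(Complex.I * β) * (p j : ℂ)) • v j)) i (I i) =
        ∏ i ∈ univ.erase j, v i (I i) := by
      refine Finset.prod_congr rfl fun i hi => ?_
      rw [Function.update_of_ne (Finset.ne_of_mem_erase hi)]
    rw [h2, Pi.smul_apply, smul_eq_mul]
    ring
  simp only [h8] at h6
  rw [← Finset.sum_mul, ← Finset.mul_sum] at h6
  rcases mul_eq_zero.1 h6 with h9 | h9
  · exfalso
    rcases mul_eq_zero.1 h9 with h10 | h10
    · rw [neg_eq_zero, mul_eq_zero] at h10
      rcases h10 with h10 | h10
      · exact Complex.I_ne_zero h10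
      · exact h3.ne' (by exact_mod_cast h10)
    · apply hne
      exact_mod_cast h10
  · exact h9

end

end Pool.Agent.V5helper10.DRB
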