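import Pool.Agent.V5helper10.DRB.Hodge

/-!
# Project DRB: irreducibility over the endomorphism field
-/

open Module Finset

set_option autoImplicit false

namespace Pool.Agent.V5helper10.DRB

open Pool.Agent.W544.K3

noncomputable section

variable {r : ℕ} (X : K3Type r)

/-- the real operator of a rational matrix -/
def opR (P : Matrix (Fin r) (Fin r) ℚ) : End ℝ (Fin r → ℝ) :=
  Matrix.toLin' (P.map (fun q : ℚ => (q : ℝ)))

theorem opR_apply (P : Matrix (Fin r) (Fin r) ℚ) (v : Fin r → ℝ) (i : Fin r) :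
    opR P v i = ∑ j, (P i j : ℝ) * v j := by
  simp [opR, Matrix.mulVec, dotProduct]

theorem app_oR (P : Matrix (Fin r) (Fin r) ℚ) (v : Fin r → ℝ) : app P (oR v) = oR (opR P v) := by
  funext i
  simp [app, oR, opR_apply]

theorem re_app (P : Matrix (Fin r) (Fin r) ℚ) (v : Fin r → ℂ) : re (app P v) = opR P (re v) := by
  funext i
  rw [opR_apply]
  exact app_re P v i

theorem im_app (P : Matrix (Fin r) (Fin r) ℚ) (v : Fin r → ℂ) : im (app P v) = opR P (im v) := by
  funext i
  rw [opR_apply]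
  exact app_im P v i

/-- the form is nondegenerate -/
theorem nondeg (w : Fin r → ℝ) (h : ∀ v, bilR X.B w v = 0) : w = 0 := by
  by_contra hw
  have h1 := X.neg w hw (by
    have e : (fun i => (w i : ℂ)) = oR w := rfl
    rw [e, eq_re_im X.ω, bil_add_right, bil_smul_right, bil_oR, bil_oR, h, h]
    simp)
  have e : (fun i => (w i : ℂ)) = oR w := rfl
  rw [e, bil_oR, h w] at h1
  simp at h1

/-- negativity on the vectors orthogonal to the two-form -/
theorem neg_of_perp (w : Fin r → ℝ) (hw : w ≠ 0) (h1 : bilR X.B w (re X.ω) = 0)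
    (h2 : bilR X.B w (im X.ω) = 0) : bilR X.B w w < 0 := by
  have h3 := X.neg w hw (by
    have e : (fun i => (w i : ℂ)) = oR w := rfl
    rw [e, eq_re_im X.ω, bil_add_right, bil_smul_right, bil_oR, bil_oR, h1, h2]
    simp)
  have e : (fun i => (w i : ℂ)) = oR w := rfl
  rw [e, bil_oR] at h3
  simpa using h3

/-- the tensor of the form `(u, v) ↦ B (P u) v` -/
def tP (P : Matrix (Fin r) (Fin r) ℚ) : (Fin 2 → Fin r) → ℚ :=
  fun I => ∑ a, P a (I 0) * X.B a (I 1)

theorem sum_aux {K : Type} [CommRing K] (P B : Fin r → Fin r → K) (u v : Fin r → K) :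
    ∑ i, ∑ j, (∑ a, P a i * B a j) * (u i * v j) =
      ∑ a, ∑ j, (∑ i, P a i * u i) * B a j * v j := by
  have h1 : ∀ i, ∑ j, (∑ a, P a i * B a j) * (u i * v j) =
      ∑ a, ∑ j, P a i * B a j * (u i * v j) := by
    intro i
    rw [Finset.sum_comm]
    exact Finset.sum_congr rfl fun j _ => Finset.sum_mul _ _ _
  simp only [h1]
  rw [Finset.sum_comm]
  refine Finset.sum_congr rfl fun a _ => ?_
  rw [Finset.sum_comm]
  refine Finset.sum_congr rfl fun j _ => ?_
  rw [Finset.sum_mul, Finset.sum_mul]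
  refine Finset.sum_congr rfl fun i _ => ?_
  ring

theorem formR_tP (P : Matrix (Fin r) (Fin r) ℚ) (v : Fin 2 → Fin r → ℝ) :
    formR (tP X P) v = bilR X.B (opR P (v 0)) (v 1) := by
  rw [formR_apply, bilR_apply]
  simp only [tP, opR_apply, Fin.prod_univ_two]
  rw [← (finTwoArrowEquiv (Fin r)).symm.sum_comp, Fintype.sum_prod_type]
  simp only [finTwoArrowEquiv_symm_apply, Matrix.cons_val_zero, Matrix.cons_val_one,
    Rat.cast_sum, Rat.cast_mul]
  exact sum_aux (fun i j => (P i j : ℝ)) (fun i j => (X.B i j : ℝ)) (v 0) (v 1)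

theorem isDRB_tP (P : Matrix (Fin r) (Fin r) ℚ)
    (h : ∀ i j, IsAlgebraic ℚ (bil X.B (app P (fun a => X.D a i)) (fun a => X.D a j))) :
    X.IsDRB (tP X P) := by
  intro J
  have h1 := h (J 0) (J 1)
  convert h1 using 1
  unfold bil app tP
  simp only [Fin.prod_univ_two]
  rw [← (finTwoArrowEquiv (Fin r)).symm.sum_comp, Fintype.sum_prod_type]
  simp only [finTwoArrowEquiv_symm_apply, Matrix.cons_val_zero, Matrix.cons_val_one,
    Rat.cast_sum, Rat.cast_mul]
  exact sum_aux (fun i j => (P i j : ℂ)) (fun i j => (X.B i j : ℂ)) (fun a => X.D a (J 0))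
    (fun a => X.D a (J 1))

theorem opR_one : opR (1 : Matrix (Fin r) (Fin r) ℚ) = 1 := by
  apply LinearMap.ext
  intro v
  funext i
  rw [opR_apply, Finset.sum_eq_single i]
  · simp
  · intro j _ hj
    rw [Matrix.one_apply_ne (Ne.symm hj)]
    simp
  · intro h
    exact absurd (Finset.mem_univ _) h

theorem app_one (v : Fin r → ℂ) : app (1 : Matrix (Fin r) (Fin r) ℚ) v = v := by
  funext i
  unfold app
  rw [Finset.sum_eq_single i]
  · simp
  · intro j _ hj
    rw [Matrix.one_apply_ne (Ne.symm hj)]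
    simp
  · intro h
    exact absurd (Finset.mem_univ _) h

/-- an operator killing the de Rham-Betti classes satisfies the identity for `B (P u) v` -/
theorem hT_tP {y : End ℝ (Fin r → ℝ)} (hy : y ∈ X.hT) (P : Matrix (Fin r) (Fin r) ℚ)
    (h : ∀ i j, IsAlgebraic ℚ (bil X.B (app P (fun a => X.D a i)) (fun a => X.D a j)))
    (u v : Fin r → ℝ) :
    bilR X.B (opR P (y u)) v + bilR X.B (opR P u) (y v) = 0 := by
  have h1 := hy 2 (tP X P) (isDRB_tP X P h) ![u, v]
  rw [Fin.sum_univ_two, formR_tP, formR_tP] at h1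
  simpa using h1

theorem hT_skew {y : End ℝ (Fin r → ℝ)} (hy : y ∈ X.hT) : Skew (bilR X.B) y := by
  intro u v
  have h1 := hT_tP X hy 1 (by
    intro i j
    rw [app_one]
    exact X.alg i j) u v
  rw [opR_one] at h1
  exact h1

theorem hT_comm (hD : X.Deligne) {y : End ℝ (Fin r → ℝ)} (hy : y ∈ X.hT)
    {P : Matrix (Fin r) (Fin r) ℚ} (hP : X.HodgeEnd P) (u : Fin r → ℝ) :
    y (opR P u) = opR P (y u) := by
  have h1 : y (opR P u) - opR P (y u) = 0 := by
    apply nondeg X
    intro v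
    have h2 := hT_tP X hy P (hD P hP) u v
    have h3 := hT_skew X hy (opR P u) v
    rw [map_sub, LinearMap.sub_apply]
    linarith
  exact sub_eq_zero.1 h1

theorem hT_U (hD : X.Deligne) {y : End ℝ (Fin r → ℝ)} (hy : y ∈ X.hT) {u : Fin r → ℝ}
    (hu : u ∈ X.U) : y u ∈ X.U := by
  intro P hP c hc i
  have h1 : opR P u = c • u := by
    funext j
    rw [opR_apply, hu P hP c hc j]
    rfl
  have h2 := hT_comm X hD hy hP u
  rw [h1, map_smul] at h2
  have h3 := congrFun h2 i
  rw [opR_apply] at h3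
  exact h3.symm

theorem cj_smul (c : ℂ) (v : Fin r → ℂ) : cj (c • v) = (starRingEnd ℂ c) • cj v := by
  funext i
  simp [cj]

theorem app_cj (P : Matrix (Fin r) (Fin r) ℚ) (v : Fin r → ℂ) : app P (cj v) = cj (app P v) := by
  funext i
  simp [cj, app]

/-- Hodge endomorphisms act on `U` as real scalars -/
theorem hodgeEnd_U (hM : X.RealMult) {P : Matrix (Fin r) (Fin r) ℚ} (hP : X.HodgeEnd P) :
    ∃ c : ℝ, ∀ u ∈ X.U, opR P u = c • u := by
  obtain ⟨c, hc⟩ := hP.1
  have h1 := hM P hP X.ω (cj X.ω)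
  rw [hc, app_cj, hc, bil_smul_left, cj_smul, bil_smul_right] at h1
  have h2 : bil X.B X.ω (cj X.ω) ≠ 0 := by
    intro h
    have := X.pos
    rw [h] at this
    simp at this
  have h3 : c = starRingEnd ℂ c := mul_right_cancel₀ h2 h1
  have h4 : c = (c.re : ℂ) := by
    have := Complex.conj_eq_iff_real.1 h3.symm
    obtain ⟨s, hs⟩ := this
    rw [hs]
    simp
  refine ⟨c.re, fun u hu => ?_⟩
  funext j
  rw [opR_apply, hu P hP c.re (by rw [← h4]; exact hc) j]
  rfl

/-- rational matrices killing the de Rham-Betti classes, as real operators -/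
theorem lie_hT {x : Matrix (Fin r) (Fin r) ℚ} (hx : x ∈ X.lie) : opR x ∈ X.hT := by
  intro k t ht
  rw [kills_iff]
  have h1 : KilM x t := hx k t ht
  have h2 := h1.map (Rat.castHom ℝ)
  have e : LinearMap.toMatrix' (opR x) = x.map (Rat.castHom ℝ) := by
    rw [opR, LinearMap.toMatrix'_toLin']
    rfl
  rw [e]
  exact h2

/-- the complex subspace of a J-stable real subspace -/
def cpl (M : Submodule ℝ ((Fin r → ℝ) × (Fin r → ℝ))) (hJ : JStable M) :
    Submodule ℂ (Fin r → ℂ) where
  carrier := {w | (re w, im w) ∈ M}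
  zero_mem' := by
    have e : (re (0 : Fin r → ℂ), im (0 : Fin r → ℂ)) = 0 := by
      ext i <;> simp [re, im]
    rw [Set.mem_ofPred_eq, e]
    exact M.zero_mem
  add_mem' := by
    intro a b ha hb
    have e : (re (a + b), im (a + b)) = (re a, im a) + (re b, im b) := by
      ext i <;> simp [re, im]
    rw [Set.mem_ofPred_eq, e]
    exact M.add_mem ha hb
  smul_mem' := by
    intro c a ha
    have e : (re (c • a), im (c • a)) = c.re • (re a, im a) + c.im • (-(im a), re a) := by
      ext i <;> simp [re, im] <;> ring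
    rw [Set.mem_ofPred_eq, e]
    exact M.add_mem (M.smul_mem _ ha) (M.smul_mem _ (hJ _ ha))

theorem t_irr : S_irr := by
  intro r X hR hE hD hM
  refine ⟨?_, fun y hy u hu => hT_U X hD hy hu⟩
  intro M hMU hJ hOp
  by_cases hbot : M = ⊥
  · exact Or.inl hbot
  refine Or.inr fun u hu v hv => ?_
  set N := cpl M hJ with hN
  have memN : ∀ w, w ∈ N ↔ (re w, im w) ∈ M := fun w => Iff.rfl
  have hst : ∀ x ∈ X.lie, ∀ w ∈ N, app x w ∈ N := by
    intro x hx w hw
    rw [memN, re_app, im_app]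
    exact hOp (opR x) (lie_hT X hx) _ hw
  obtain ⟨N', hst', hc⟩ := hR N hst
  -- the projection
  set π : End ℂ (Fin r → ℂ) := N.subtype.comp (Submodule.projectionOnto N N' hc) with hπ
  have π1 : ∀ w ∈ N, π w = w := by
    intro w hw
    have e := Submodule.projectionOnto_apply_left hc ⟨w, hw⟩
    rw [hπ, LinearMap.comp_apply]
    exact congrArg Subtype.val e
  have π0 : ∀ w ∈ N', π w = 0 := by
    intro w hw
    have e := Submodule.projectionOnto_apply_right hc ⟨w, hw⟩
    rw [hπ, LinearMap.comp_apply]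
    exact congrArg Subtype.val e
  have hdec : ∀ w : Fin r → ℂ, ∃ a ∈ N, ∃ b ∈ N', w = a + b := by
    intro w
    have : w ∈ N ⊔ N' := by rw [hc.sup_eq_top]; exact Submodule.mem_top
    obtain ⟨a, ha, b, hb, h⟩ := Submodule.mem_sup.1 this
    exact ⟨a, ha, b, hb, h.symm⟩
  have appadd : ∀ (x : Matrix (Fin r) (Fin r) ℚ) (a b : Fin r → ℂ),
      app x (a + b) = app x a + app x b := by
    intro x a b
    funext i
    simp [app, mul_add, Finset.sum_add_distrib]
  have mvapp : ∀ (x : Matrix (Fin r) (Fin r) ℚ) (a : Fin r → ℂ),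
      (x.map (fun q : ℚ => (q : ℂ))).mulVec a = app x a := by
    intro x a
    rfl
  have hcomm : ∀ x ∈ X.lie, LinearMap.toMatrix' π * x.map (fun q : ℚ => (q : ℂ)) =
      x.map (fun q : ℚ => (q : ℂ)) * LinearMap.toMatrix' π := by
    intro x hx
    apply Matrix.toLin'.injective
    apply LinearMap.ext
    intro w
    rw [Matrix.toLin'_mul, Matrix.toLin'_mul, LinearMap.comp_apply, LinearMap.comp_apply,
      Matrix.toLin'_toMatrix', Matrix.toLin'_apply, Matrix.toLin'_apply, mvapp, mvapp]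
    obtain ⟨a, ha, b, hb, rfl⟩ := hdec w
    rw [appadd, map_add, map_add, π1 _ (hst x hx a ha), π0 _ (hst' x hx b hb), π1 a ha, π0 b hb,
      add_zero, add_zero]
  have hsp := hE _ hcomm
  -- all matrices in the span act on `U` as scalars
  let T : Submodule ℂ (Matrix (Fin r) (Fin r) ℂ) :=
    { carrier := {Q | ∃ c : ℂ, ∀ u ∈ X.U, Q.mulVec (oR u) = c • oR u}
      zero_mem' := ⟨0, fun u _ => by simp⟩
      add_mem' := by
        rintro a b ⟨c, hc⟩ ⟨d, hd⟩
        exact ⟨c + d, fun u hu => by rw [Matrix.add_mulVec, hc u hu, hd u hu, add_smul]⟩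
      smul_mem' := by
        rintro e a ⟨c, hc⟩
        exact ⟨e * c, fun u hu => by rw [Matrix.smul_mulVec, hc u hu, smul_smul]⟩ }
  have hT : LinearMap.toMatrix' π ∈ T := by
    refine (Submodule.span_le.2 ?_) hsp
    rintro _ ⟨Q, hQ, rfl⟩
    obtain ⟨c, hc⟩ := hodgeEnd_U X hM hQ
    refine ⟨c, fun u hu => ?_⟩
    show (Q.map (fun q : ℚ => (q : ℂ))).mulVec (oR u) = _
    rw [mvapp, app_oR, hc u hu]
    funext i
    simp [oR]
  obtain ⟨c, hc'⟩ := hT
  have hcπ : ∀ u ∈ X.U, π (oR u) = c • oR u := by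
    intro u hu
    rw [← hc' u hu, LinearMap.toMatrix'_mulVec]
  -- a nonzero element of `M`
  obtain ⟨q, hq, hq0⟩ := (Submodule.ne_bot_iff M).1 hbot
  have hqU := hMU q hq
  set w : Fin r → ℂ := oR q.1 + Complex.I • oR q.2 with hw
  have hwN : w ∈ N := by
    rw [memN, hw, re_I_smul_add, im_I_smul_add]
    exact hq
  have hw1 : c • w = w := by
    have e1 := π1 w hwN
    rw [hw, map_add, map_smul, hcπ _ hqU.1, hcπ _ hqU.2, smul_comm Complex.I c, ← smul_add] at e1
    rw [hw]
    exact e1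
  have hw0 : w ≠ 0 := by
    intro h
    apply hq0
    have e1 : re w = 0 := by rw [h]; funext i; simp [re]
    have e2 : im w = 0 := by rw [h]; funext i; simp [im]
    rw [hw, re_I_smul_add] at e1
    rw [hw, im_I_smul_add] at e2
    exact Prod.ext e1 e2
  have hc1 : c = 1 := by
    have : (c - 1) • w = 0 := by rw [sub_smul, one_smul, hw1, sub_self]
    rcases smul_eq_zero.1 this with h | h
    · exact sub_eq_zero.1 h
    · exact absurd h hw0
  -- `U` is contained in `M`
  have hfin : ∀ u ∈ X.U, ((u, 0) : (Fin r → ℝ) × (Fin r → ℝ)) ∈ M := by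
    intro u hu
    have e1 : oR u ∈ N := by
      have e2 : π (oR u) = oR u := by rw [hcπ u hu, hc1, one_smul]
      rw [← e2, hπ, LinearMap.comp_apply]
      exact (Submodule.projectionOnto N N' hc (oR u)).2
    rw [memN] at e1
    have e3 : re (oR u) = u := by funext i; simp [re, oR]
    have e4 : im (oR u) = 0 := by funext i; simp [im, oR]
    rwa [e3, e4] at e1
  have h1 := hfin u hu
  have h2 := hJ _ (hfin v hv)
  have h3 := M.add_mem h1 h2
  simpa using h3

end

end Pool.Agent.V5helper10.DRB
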