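import Pool.Agent.V5helper10.DRB.All
import Pool.Agent.V5helper10.DRB.MultiB
import Pool.Agent.V5helper10.DRB.Ext2
import Pool.Agent.V5helper40.DRB.GOUR
import Pool.Agent.V5helper40.DRB.LOG2
import Pool.Agent.V5helper40.DRB.REG
import Pool.Agent.V5helper41.DRB.SIMP
import Pool.Agent.V5helper68.DRB.HODGE2
import Pool.Agent.V5helper68.DRB.HYP2
import Pool.Agent.V5helper68.DRB.IRR2
import Pool.Agent.W417.K3.Fft2B

/-!
# Project DRB: assembly for products of several K3 surfaces
-/

open Module Finset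

set_option autoImplicit false

namespace Pool.Agent.V5helper10.DRB

open Pool.Agent.W544.K3

theorem b_reG : S_reG := V5helper40.DRB.t_REG a_exp V5helper79.DRB.t_LOGQ V5helper5.DRB.t_LOGT
theorem b_log2 : S_log2 := V5helper40.DRB.t_LOG2 V5helper79.DRB.t_LOGQ V5helper5.DRB.t_LOGT
theorem b_hyp2 : S_hyp2 := V5helper68.DRB.t_HYP2 a_exp a_comp
theorem b_simp : S_simp := V5helper41.DRB.t_SIMP

theorem b_main2 (hrig : S_rigid) : S_main2 :=
  t_main2 V5helper68.DRB.t_LIE b_reG b_log2 b_hyp2 a_core (V5helper40.DRB.t_GOUR b_simp hrig)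
    V5helper68.DRB.t_IRR2 V5helper68.DRB.t_IND2

variable {n N : ℕ}

/-- de Rham-Betti classes on products are Hodge classes -/
theorem products_hodge (hrig : S_rigid) (X : Multi n N) (hR : X.Reductive) (hE : X.EndHodge)
    (hD : X.Deligne) (hM : X.RealMult)
    (h3 : ∀ i, 3 ≤ finrank ℝ (X.U i) ∧ finrank ℝ (X.U i) ≠ 4 ∧ finrank ℝ (X.U i) ≠ 5) (s m : ℕ)
    (t : (Fin m → Fin s ⊕ Fin n) → ℚ) (ht : X.IsDRB' t) : X.IsHodge' t :=
  Ext2.hodge X (V5helper68.DRB.t_HODGE2 n N X (b_main2 hrig n N X hR hE hD hM h3)) t ht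

theorem app_diag (q : Fin n → ℚ) (u : Fin n → ℂ) (a : Fin n) :
    app (Matrix.diagonal q) u a = (q a : ℂ) * u a := by
  unfold app
  rw [Finset.sum_eq_single a]
  · simp
  · intro j _ hj
    simp [Matrix.diagonal_apply_ne _ (Ne.symm hj)]
  · intro h
    exact absurd (Finset.mem_univ _) h

theorem omega_ne (X : Multi n N) (i : Fin N) : ∃ a, X.ω i a ≠ 0 := by
  by_contra h
  push Not at h
  have h2 : X.ω i = 0 := funext h
  have := X.pos i
  rw [h2] at this
  simp [bil] at this

theorem mem_U_iff (X : Multi n N)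
    (hQ : ∀ P, X.HodgeEnd P → ∃ q : Fin N → ℚ, P = Matrix.diagonal fun a => q (X.c a))
    (i : Fin N) (v : Fin n → ℝ) : v ∈ X.U i ↔ ∀ a, X.c a ≠ i → v a = 0 := by
  constructor
  · intro h
    exact h.1
  · intro h
    refine ⟨h, ?_⟩
    intro P hP c hc a
    obtain ⟨q, rfl⟩ := hQ P hP
    obtain ⟨b, hb⟩ := omega_ne X i
    have hbi : X.c b = i := by
      by_contra hne
      exact hb (X.ωblock i b hne)
    have h1 := congrFun hc b
    rw [app_diag, Pi.smul_apply, smul_eq_mul, hbi] at h1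
    have h2 : (q i : ℂ) = (c : ℂ) := mul_right_cancel₀ hb h1
    have h3 : (q i : ℝ) = c := by
      have : ((q i : ℝ) : ℂ) = (c : ℂ) := by rw [← h2]; simp
      exact_mod_cast this
    rw [Finset.sum_eq_single a]
    · rw [Matrix.diagonal_apply_eq]
      by_cases ha : X.c a = i
      · rw [ha, h3]
      · rw [h a ha, mul_zero, mul_zero]
    · intro j _ hj
      rw [Matrix.diagonal_apply_ne _ (Ne.symm hj)]
      simp
    · intro h
      exact absurd (Finset.mem_univ _) h

/-- the functions supported on a block -/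
noncomputable def blockEquiv (X : Multi n N) (i : Fin N)
    (hU : ∀ v, v ∈ X.U i ↔ ∀ a, X.c a ≠ i → v a = 0) :
    X.U i ≃ₗ[ℝ] ({a // X.c a = i} → ℝ) where
  toFun v a := v.1 a.1
  map_add' _ _ := rfl
  map_smul' _ _ := rfl
  invFun w := ⟨fun a => if h : X.c a = i then w ⟨a, h⟩ else 0, by
    rw [hU]
    intro a ha
    rw [dif_neg ha]⟩
  left_inv v := by
    apply Subtype.ext
    funext a
    by_cases h : X.c a = i
    · simp only [h, dif_pos]
    · simp only [h, dite_false]
      exact ((hU v.1).1 v.2 a h).symm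
  right_inv w := by
    funext a
    simp only [a.2, dif_pos]

theorem finrank_U (X : Multi n N)
    (hQ : ∀ P, X.HodgeEnd P → ∃ q : Fin N → ℚ, P = Matrix.diagonal fun a => q (X.c a))
    (i : Fin N) : finrank ℝ (X.U i) = X.rk i := by
  rw [(blockEquiv X i (mem_U_iff X hQ i)).finrank_eq, Module.finrank_fintype_fun_eq_card,
    Fintype.card_subtype]
  rfl

theorem deligneM (X : Multi n N)
    (hQ : ∀ P, X.HodgeEnd P → ∃ q : Fin N → ℚ, P = Matrix.diagonal fun a => q (X.c a)) :
    X.Deligne := by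
  intro P hP i j
  obtain ⟨q, rfl⟩ := hQ P hP
  have h1 : app (Matrix.diagonal fun a => q (X.c a)) (fun a => X.D a i) =
      (q (X.c i) : ℂ) • (fun a => X.D a i) := by
    funext a
    rw [app_diag, Pi.smul_apply, smul_eq_mul]
    by_cases ha : X.c a = X.c i
    · rw [ha]
    · rw [X.Dblock a i ha, mul_zero, mul_zero]
  rw [h1, bil_smul_left]
  exact IsAlgebraic.mul (isAlgebraic_algebraMap (q (X.c i))) (X.alg i j)

theorem realMultM (X : Multi n N)
    (hQ : ∀ P, X.HodgeEnd P → ∃ q : Fin N → ℚ, P = Matrix.diagonal fun a => q (X.c a)) :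
    X.RealMult := by
  intro P hP
  obtain ⟨q, rfl⟩ := hQ P hP
  constructor
  · intro u v
    unfold bil
    refine Finset.sum_congr rfl fun a _ => Finset.sum_congr rfl fun b _ => ?_
    rw [app_diag, app_diag]
    by_cases hab : X.c a = X.c b
    · rw [hab]
      ring
    · rw [X.Bblock a b hab]
      simp
  · intro a b hab
    exact Matrix.diagonal_apply_ne _ (fun h => hab (by rw [h]))

/-- if all Hodge endomorphisms act as scalars on each `T_i`, de Rham-Betti classes in low degree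
are Hodge and algebraic -/
theorem products_both (hrig : S_rigid) (X : Multi n N) (hR : X.Reductive) (hE : X.EndHodge)
    (hQ : ∀ P, X.HodgeEnd P → ∃ q : Fin N → ℚ, P = Matrix.diagonal fun a => q (X.c a))
    (hN : 0 < N) (h3 : ∀ i, 3 ≤ X.rk i ∧ X.rk i ≠ 4 ∧ X.rk i ≠ 5) (s m : ℕ)
    (t : (Fin m → Fin s ⊕ Fin n) → ℚ) (ht : X.IsDRB' t)
    (hd : ∀ I, t I ≠ 0 → ∀ i, (univ.filter fun j => ∃ a, I j = Sum.inr a ∧ X.c a = i).card <
      X.rk i) :
    X.IsHodge' t ∧ t ∈ X.algClasses s m := by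
  have hD := deligneM X hQ
  have hM := realMultM X hQ
  have h3' : ∀ i, 3 ≤ finrank ℝ (X.U i) ∧ finrank ℝ (X.U i) ≠ 4 ∧ finrank ℝ (X.U i) ≠ 5 := by
    intro i
    rw [finrank_U X hQ i]
    exact h3 i
  refine ⟨products_hodge hrig X hR hE hD hM h3' s m t ht, ?_⟩
  have hmain := b_main2 hrig n N X hR hE hD hM h3'
  refine Ext2.alg X ⟨0, hN⟩ ?_ t ht hd
  intro k t' ht' hd'
  refine W417.K3.Fft2.fft2 n N X k t' ?_ hd'
  intro i y hy h0
  refine hmain i y hy ?_ k t' ht'
  intro v hv
  refine h0 v ?_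
  -- `v` is orthogonal to the block `i`
  have hb : bc X i v = 0 := by
    apply U_nondeg X i
    · rw [mem_U_iff X hQ i]
      intro a ha
      exact if_neg ha
    · intro u hu
      rw [← bilR_bc X i (fun a ha => ((mem_U_iff X hQ i u).1 hu) a ha) v]
      exact hv u hu
  intro a ha
  have := congrFun hb a
  unfold bc at this
  rw [if_pos ha] at this
  exact this

end Pool.Agent.V5helper10.DRB
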