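import Pool.Agent.W544.K3.Defs

/-!
# Project DRB: coordinates of multilinear forms, bilinear forms of K3 types
-/

open Module Finset

set_option autoImplicit false

namespace Pool.Agent.V5helper10.DRB

open Pool.Agent.W544.K3

noncomputable section

section coord

variable {ι : Type} [Fintype ι] [DecidableEq ι] {k : ℕ} {K : Type} [CommRing K]

theorem sum_swap (j : Fin k) (F : (Fin k → ι) → ι → K) :
    ∑ I, ∑ b, F I b = ∑ J : Fin k → ι, ∑ l, F (Function.update J j l) (J j) := by
  rw [← Fintype.sum_prod_type', ← Fintype.sum_prod_type']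
  refine Finset.sum_bij' (fun p _ => (Function.update p.1 j p.2, p.1 j))
    (fun p _ => (Function.update p.1 j p.2, p.1 j)) ?_ ?_ ?_ ?_ ?_
  · intro p _
    exact Finset.mem_univ _
  · intro p _
    exact Finset.mem_univ _
  · intro p _
    simp
  · intro p _
    simp
  · intro p _
    simp

/-- value of a form -/
def evK (t : (Fin k → ι) → K) (v : Fin k → ι → K) : K := ∑ I, t I * ∏ j, v j (I j)

theorem evK_up (t : (Fin k → ι) → K) (v : Fin k → ι → K) (Y : Matrix ι ι K) (j : Fin k) :
    evK t (Function.update v j (Y.mulVec (v j))) =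
      ∑ J : Fin k → ι, (∑ l, Y l (J j) * t (Function.update J j l)) * ∏ i, v i (J i) := by
  unfold evK
  have h1 : ∀ I : Fin k → ι, t I * ∏ i, (Function.update v j (Y.mulVec (v j))) i (I i) =
      ∑ b, t I * (Y (I j) b * v j b) * ∏ i ∈ univ.erase j, v i (I i) := by
    intro I
    rw [← Finset.mul_prod_erase _ _ (Finset.mem_univ j), Function.update_self]
    have h2 : ∏ i ∈ univ.erase j, (Function.update v j (Y.mulVec (v j))) i (I i) =
        ∏ i ∈ univ.erase j, v i (I i) := by
      refine Finset.prod_congr rfl fun i hi => ?_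
      rw [Function.update_of_ne (Finset.ne_of_mem_erase hi)]
    rw [h2, ← Finset.sum_mul, ← Finset.mul_sum]
    simp only [Matrix.mulVec, dotProduct]
    ring
  simp only [h1]
  rw [sum_swap j]
  refine Finset.sum_congr rfl fun J _ => ?_
  rw [Finset.sum_mul]
  refine Finset.sum_congr rfl fun l _ => ?_
  rw [← Finset.mul_prod_erase _ (fun i => v i (J i)) (Finset.mem_univ j), Function.update_self]
  have h2 : ∏ i ∈ univ.erase j, v i ((Function.update J j l) i) =
      ∏ i ∈ univ.erase j, v i (J i) := by
    refine Finset.prod_congr rfl fun i hi => ?_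
    rw [Function.update_of_ne (Finset.ne_of_mem_erase hi)]
  rw [h2]
  ring

/-- the matrix `Y` kills the form with the coefficients `t` -/
def KilM (Y : Matrix ι ι K) (t : (Fin k → ι) → K) : Prop :=
  ∀ J : Fin k → ι, ∑ j, ∑ l, Y l (J j) * t (Function.update J j l) = 0

theorem evK_single (t : (Fin k → ι) → K) (J : Fin k → ι) :
    evK t (fun j => Pi.single (J j) 1) = t J := by
  unfold evK
  rw [Finset.sum_eq_single J]
  · simp
  · intro I _ hI
    obtain ⟨j, hj⟩ := Function.ne_iff.1 hI
    rw [Finset.prod_eq_zero (Finset.mem_univ j), mul_zero]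
    exact Pi.single_eq_of_ne hj 1
  · intro h
    exact absurd (Finset.mem_univ _) h

theorem kilM_iff (Y : Matrix ι ι K) (t : (Fin k → ι) → K) :
    KilM Y t ↔ ∀ v : Fin k → ι → K, ∑ j, evK t (Function.update v j (Y.mulVec (v j))) = 0 := by
  constructor
  · intro h v
    simp only [evK_up]
    rw [Finset.sum_comm]
    refine Finset.sum_eq_zero fun J _ => ?_
    rw [← Finset.sum_mul, h J, zero_mul]
  · intro h J
    have h1 := h (fun j => Pi.single (J j) 1)
    simp only [evK_up] at h1
    rw [Finset.sum_comm] at h1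
    rw [Finset.sum_eq_single J] at h1
    · rw [← Finset.sum_mul] at h1
      simpa using h1
    · intro I _ hI
      rw [← Finset.sum_mul]
      obtain ⟨j, hj⟩ := Function.ne_iff.1 hI
      rw [Finset.prod_eq_zero (Finset.mem_univ j), mul_zero]
      exact Pi.single_eq_of_ne hj 1
    · intro h
      exact absurd (Finset.mem_univ _) h

theorem KilM.map {L : Type} [CommRing L] (f : K →+* L) {Y : Matrix ι ι K} {t : (Fin k → ι) → K}
    (h : KilM Y t) : KilM (Y.map f) (fun I => f (t I)) := by
  intro J
  have h1 := congrArg f (h J)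
  simpa [map_sum] using h1

end coord

variable {r : ℕ}

theorem kills_iff {k : ℕ} (t : (Fin k → Fin r) → ℚ) (y : End ℝ (Fin r → ℝ)) :
    Kills y (formR t) ↔ KilM (LinearMap.toMatrix' y) (fun I => (t I : ℝ)) := by
  rw [kilM_iff]
  constructor
  · intro h v
    have h1 := h v
    simp only [formR_apply] at h1
    simpa only [evK, LinearMap.toMatrix'_mulVec] using h1
  · intro h v
    have h1 := h v
    simp only [formR_apply]
    simpa only [evK, LinearMap.toMatrix'_mulVec] using h1

/-- real parts and imaginary parts -/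
def re (v : Fin r → ℂ) : Fin r → ℝ := fun i => (v i).re

def im (v : Fin r → ℂ) : Fin r → ℝ := fun i => (v i).im

/-- the complex vector of a real vector -/
def oR (v : Fin r → ℝ) : Fin r → ℂ := fun i => (v i : ℂ)

theorem eq_re_im (v : Fin r → ℂ) : v = oR (re v) + Complex.I • oR (im v) := by
  funext i
  simp [oR, re, im, mul_comm Complex.I, Complex.re_add_im]

theorem bil_oR (B : Matrix (Fin r) (Fin r) ℚ) (u v : Fin r → ℝ) :
    bil B (oR u) (oR v) = (bilR B u v : ℂ) := by
  rw [bilR_apply]
  simp [bil, oR]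

theorem bil_add_left (B : Matrix (Fin r) (Fin r) ℚ) (u u' v : Fin r → ℂ) :
    bil B (u + u') v = bil B u v + bil B u' v := by
  simp only [bil, Pi.add_apply, add_mul, Finset.sum_add_distrib]

theorem bil_add_right (B : Matrix (Fin r) (Fin r) ℚ) (u v v' : Fin r → ℂ) :
    bil B u (v + v') = bil B u v + bil B u v' := by
  simp only [bil, Pi.add_apply, mul_add, Finset.sum_add_distrib]

theorem bil_smul_left (B : Matrix (Fin r) (Fin r) ℚ) (c : ℂ) (u v : Fin r → ℂ) :
    bil B (c • u) v = c * bil B u v := by
  simp only [bil, Pi.smul_apply, smul_eq_mul, Finset.mul_sum]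
  refine Finset.sum_congr rfl fun i _ => Finset.sum_congr rfl fun j _ => ?_
  ring

theorem bil_smul_right (B : Matrix (Fin r) (Fin r) ℚ) (c : ℂ) (u v : Fin r → ℂ) :
    bil B u (c • v) = c * bil B u v := by
  simp only [bil, Pi.smul_apply, smul_eq_mul, Finset.mul_sum]
  refine Finset.sum_congr rfl fun i _ => Finset.sum_congr rfl fun j _ => ?_
  ring

theorem bilR_symm (B : Matrix (Fin r) (Fin r) ℚ) (hB : ∀ i j, B i j = B j i) (u v : Fin r → ℝ) :
    bilR B u v = bilR B v u := by
  rw [bilR_apply, bilR_apply, Finset.sum_comm]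
  refine Finset.sum_congr rfl fun i _ => Finset.sum_congr rfl fun j _ => ?_
  rw [hB j i]
  ring

theorem bil_symm (B : Matrix (Fin r) (Fin r) ℚ) (hB : ∀ i j, B i j = B j i) (u v : Fin r → ℂ) :
    bil B u v = bil B v u := by
  unfold bil
  rw [Finset.sum_comm]
  refine Finset.sum_congr rfl fun i _ => Finset.sum_congr rfl fun j _ => ?_
  rw [hB j i]
  ring

theorem wedge_skew {U : Type} [AddCommGroup U] [Module ℝ U] (B : U →ₗ[ℝ] U →ₗ[ℝ] ℝ)
    (hB : ∀ u v, B u v = B v u) (u v : U) : Skew B (wedge B u v) := by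
  intro w w'
  simp only [wedge_apply, map_sub, map_smul, LinearMap.sub_apply, LinearMap.smul_apply,
    smul_eq_mul]
  rw [hB w u, hB w v]
  ring

end

end Pool.Agent.V5helper10.DRB
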