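import Pool.Agent.V5helper10.DRB.Irr

/-!
# Project DRB: the decomposition `T = U ⊕ W` and the extension of operators by zero
-/

open Module Finset

set_option autoImplicit false

namespace Pool.Agent.V5helper10.DRB

open Pool.Agent.W544.K3

noncomputable section

variable {r : ℕ} (X : K3Type r)

/-- the orthogonal complement of `U` -/
def Wp : Submodule ℝ (Fin r → ℝ) where
  carrier := {v | ∀ u ∈ X.U, bilR X.B u v = 0}
  zero_mem' := by
    intro u _
    simp
  add_mem' := by
    intro a b ha hb u hu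
    rw [map_add, ha u hu, hb u hu, add_zero]
  smul_mem' := by
    intro c a ha u hu
    rw [map_smul, ha u hu, smul_zero]

theorem mem_Wp {v : Fin r → ℝ} : v ∈ Wp X ↔ ∀ u ∈ X.U, bilR X.B u v = 0 := Iff.rfl

theorem Wp_neg {v : Fin r → ℝ} (hv : v ∈ Wp X) (h0 : v ≠ 0) : bilR X.B v v < 0 := by
  refine neg_of_perp X v h0 ?_ ?_
  · rw [bilR_symm X.B X.symm]
    exact hv _ (re_mem_U X)
  · rw [bilR_symm X.B X.symm]
    exact hv _ (im_mem_U X)

theorem disj : X.U ⊓ Wp X = ⊥ := by
  rw [Submodule.eq_bot_iff]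
  intro v hv
  by_contra h0
  have h1 := Wp_neg X hv.2 h0
  have h2 := hv.2 v hv.1
  linarith

theorem isCompl_UW : IsCompl X.U (Wp X) := by
  refine ⟨disjoint_iff.2 (disj X), ?_⟩
  rw [codisjoint_iff]
  -- the linear map `v ↦ B(·, v)` restricted to `U`
  let φ : (Fin r → ℝ) →ₗ[ℝ] (X.U →ₗ[ℝ] ℝ) :=
    { toFun := fun v => (LinearMap.flip (bilR X.B) v).comp X.U.subtype
      map_add' := by
        intro a b
        ext u
        simp
      map_smul' := by
        intro c a
        ext u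
        simp }
  have hk : LinearMap.ker φ = Wp X := by
    ext v
    rw [LinearMap.mem_ker, mem_Wp]
    constructor
    · intro h u hu
      exact LinearMap.congr_fun h ⟨u, hu⟩
    · intro h
      ext u
      exact h u.1 u.2
  have h1 := LinearMap.finrank_range_add_finrank_ker φ
  rw [hk] at h1
  have h2 : finrank ℝ (LinearMap.range φ) ≤ finrank ℝ X.U := by
    refine (Submodule.finrank_le _).trans ?_
    rw [Subspace.dual_finrank_eq]
  apply Submodule.eq_top_of_finrank_eq
  have h3 := Submodule.finrank_sup_add_finrank_inf_eq X.U (Wp X)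
  rw [disj X, finrank_bot, add_zero] at h3
  have h4 := Submodule.finrank_le (X.U ⊔ Wp X)
  omega

/-- projection to `U` -/
def pU : (Fin r → ℝ) →ₗ[ℝ] X.U := Submodule.projectionOnto X.U (Wp X) (isCompl_UW X)

theorem pU_U (u : X.U) : pU X (u : Fin r → ℝ) = u :=
  Submodule.projectionOnto_apply_left (isCompl_UW X) u

theorem pU_W {w : Fin r → ℝ} (hw : w ∈ Wp X) : pU X w = 0 :=
  Submodule.projectionOnto_apply_right (isCompl_UW X) ⟨w, hw⟩

theorem dec (v : Fin r → ℝ) : v - (pU X v : Fin r → ℝ) ∈ Wp X := by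
  have : v ∈ X.U ⊔ Wp X := by rw [(isCompl_UW X).sup_eq_top]; exact Submodule.mem_top
  obtain ⟨a, ha, b, hb, h⟩ := Submodule.mem_sup.1 this
  rw [← h, map_add, pU_W X hb, add_zero]
  have := pU_U X ⟨a, ha⟩
  rw [this]
  simpa using hb

/-- extension of an operator of `U` by zero on the complement -/
def ex (y : End ℝ X.U) : End ℝ (Fin r → ℝ) := X.U.subtype.comp (y.comp (pU X))

theorem ex_apply (y : End ℝ X.U) (v : Fin r → ℝ) : ex X y v = (y (pU X v) : Fin r → ℝ) := rfl

theorem ex_U (y : End ℝ X.U) (u : X.U) : ex X y (u : Fin r → ℝ) = (y u : Fin r → ℝ) := by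
  rw [ex_apply, pU_U]

theorem ex_W (y : End ℝ X.U) {w : Fin r → ℝ} (hw : w ∈ Wp X) : ex X y w = 0 := by
  rw [ex_apply, pU_W X hw, map_zero]
  rfl

/-- two operators agreeing on `U` and on the complement agree -/
theorem ext_UW {y z : End ℝ (Fin r → ℝ)} (h1 : ∀ u : X.U, y (u : Fin r → ℝ) = z (u : Fin r → ℝ))
    (h2 : ∀ w ∈ Wp X, y w = z w) : y = z := by
  apply LinearMap.ext
  intro v
  have e : v = (pU X v : Fin r → ℝ) + (v - (pU X v : Fin r → ℝ)) := by abel
  rw [e, map_add, map_add, h1, h2 _ (dec X v)]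

/-- the form on `U` -/
def BU : X.U →ₗ[ℝ] X.U →ₗ[ℝ] ℝ := (bilR X.B).domRestrict₁₂ X.U X.U

theorem BU_apply (u v : X.U) : BU X u v = bilR X.B (u : Fin r → ℝ) (v : Fin r → ℝ) := rfl

/-- restrictions of the operators in `hT` -/
def hU : Submodule ℝ (End ℝ X.U) where
  carrier := {y | ∃ Y ∈ X.hT, ∀ u : X.U, Y (u : Fin r → ℝ) = (y u : Fin r → ℝ)}
  zero_mem' := ⟨0, X.hT.zero_mem, fun u => by simp⟩
  add_mem' := by
    rintro a b ⟨A, hA, hA'⟩ ⟨B, hB, hB'⟩
    exact ⟨A + B, X.hT.add_mem hA hB, fun u => by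
      rw [LinearMap.add_apply, hA' u, hB' u, LinearMap.add_apply]
      rfl⟩
  smul_mem' := by
    rintro c a ⟨A, hA, hA'⟩
    exact ⟨c • A, X.hT.smul_mem c hA, fun u => by
      rw [LinearMap.smul_apply, hA' u, LinearMap.smul_apply]
      rfl⟩

/-- operators of `U` whose extension by zero is in `hT` -/
def nU : Submodule ℝ (End ℝ X.U) where
  carrier := {y | ex X y ∈ X.hT}
  zero_mem' := by
    have e : ex X (0 : End ℝ X.U) = 0 := by
      apply LinearMap.ext
      intro v
      rw [ex_apply]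
      simp
    show ex X 0 ∈ X.hT
    rw [e]
    exact X.hT.zero_mem
  add_mem' := by
    intro a b ha hb
    have e : ex X (a + b) = ex X a + ex X b := by
      apply LinearMap.ext
      intro v
      rw [LinearMap.add_apply, ex_apply, ex_apply, ex_apply, LinearMap.add_apply]
      rfl
    show ex X (a + b) ∈ X.hT
    rw [e]
    exact X.hT.add_mem ha hb
  smul_mem' := by
    intro c a ha
    have e : ex X (c • a) = c • ex X a := by
      apply LinearMap.ext
      intro v
      rw [LinearMap.smul_apply, ex_apply, ex_apply, LinearMap.smul_apply]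
      rfl
    show ex X (c • a) ∈ X.hT
    rw [e]
    exact X.hT.smul_mem c ha

theorem mem_nU {y : End ℝ X.U} : y ∈ nU X ↔ ex X y ∈ X.hT := Iff.rfl

theorem sig2_BU : Sig2 (BU X) := by
  obtain ⟨h1, h2, h3⟩ := bil_omega X
  refine ⟨fun u v => bilR_symm X.B X.symm _ _, ⟨_, re_mem_U X⟩, ⟨_, im_mem_U X⟩, h3, ?_, h2, ?_⟩
  · rw [BU_apply]
    rw [← h1]
    exact h3
  · intro v hv hp hq
    refine neg_of_perp X _ ?_ hp hq
    intro h
    exact hv (Subtype.ext h)

/-- elements of `hT` preserve the complement -/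
theorem hT_W (hD : X.Deligne) {y : End ℝ (Fin r → ℝ)} (hy : y ∈ X.hT) {w : Fin r → ℝ}
    (hw : w ∈ Wp X) : y w ∈ Wp X := by
  intro u hu
  have h1 := hT_skew X hy u w
  rw [hw _ (hT_U X hD hy hu), zero_add] at h1
  exact h1

/-- a skew operator which kills the complement is an extension -/
theorem skew_ex {y : End ℝ (Fin r → ℝ)} (hs : Skew (bilR X.B) y) (hW : ∀ w ∈ Wp X, y w = 0) :
    ∃ y' : End ℝ X.U, Skew (BU X) y' ∧ y = ex X y' := by
  have hU : ∀ u ∈ X.U, y u ∈ X.U := by
    intro u _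
    have h1 := dec X (y u)
    by_contra hne
    have h0 : y u - (pU X (y u) : Fin r → ℝ) ≠ 0 := by
      intro h
      apply hne
      rw [sub_eq_zero.1 h]
      exact (pU X (y u)).2
    have h2 := Wp_neg X h1 h0
    have h3 := hs u (y u - (pU X (y u) : Fin r → ℝ))
    rw [hW _ h1, map_zero, add_zero] at h3
    have h4 := h1 _ (pU X (y u)).2
    have h5 : bilR X.B (y u - (pU X (y u) : Fin r → ℝ)) (y u - (pU X (y u) : Fin r → ℝ)) =
        bilR X.B (y u) (y u - (pU X (y u) : Fin r → ℝ)) -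
        bilR X.B (pU X (y u) : Fin r → ℝ) (y u - (pU X (y u) : Fin r → ℝ)) := by
      rw [← LinearMap.sub_apply, ← map_sub]
    linarith
  refine ⟨y.restrict hU, ?_, ?_⟩
  · intro u v
    exact hs u v
  · refine ext_UW X ?_ ?_
    · intro u
      rw [ex_U]
      rfl
    · intro w hw
      rw [hW w hw, ex_W X _ hw]

end

end Pool.Agent.V5helper10.DRB
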