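import Pool.Agent.W544.K3.Defs2
import Pool.Agent.V5helper10.DRB.Base

/-!
# Project DRB: products of K3 surfaces, decomposition `T = ⊕ U_i ⊕ W`
-/

open Module Finset

set_option autoImplicit false

namespace Pool.Agent.V5helper10.DRB

open Pool.Agent.W544.K3

noncomputable section

/-- symmetric operators are diagonalisable -/
theorem symm_diag {V : Type} [AddCommGroup V] [Module ℝ V] [FiniteDimensional ℝ V]
    (P : V →ₗ[ℝ] V →ₗ[ℝ] ℝ) (hP : IsPos P) (y : End ℝ V) (hy : SymOp P y) : Diag y := by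
  let core : InnerProductSpace.Core ℝ V :=
    { inner := fun u v => P u v
      conj_inner_symm := fun u v => by
        simp only [conj_trivial]
        exact hP.1 v u
      re_inner_nonneg := fun u => by
        by_cases h : u = 0
        · simp [h]
        · exact (hP.2 u h).le
      add_left := fun u v w => by
        rw [map_add, LinearMap.add_apply]
      smul_left := fun u v c => by
        rw [map_smul, LinearMap.smul_apply]
        simp
      definite := fun u h => by
        by_contra h0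
        exact (hP.2 u h0).ne' h }
  let _ : NormedAddCommGroup V := core.toNormedAddCommGroup
  let _ : InnerProductSpace ℝ V := InnerProductSpace.ofCore core.toCore
  have hs : LinearMap.IsSymmetric y := fun u v => hy u v
  have h1 := hs.orthogonalComplement_iSup_eigenspaces_eq_bot
  exact (Submodule.orthogonal_eq_bot_iff).1 h1

section proj

variable {n : ℕ} (B : (Fin n → ℝ) →ₗ[ℝ] (Fin n → ℝ) →ₗ[ℝ] ℝ) (U : Submodule ℝ (Fin n → ℝ))

/-- the orthogonal complement -/
def orth : Submodule ℝ (Fin n → ℝ) where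
  carrier := {v | ∀ u ∈ U, B u v = 0}
  zero_mem' := by
    intro u _
    simp
  add_mem' := by
    intro a b ha hb u hu
    rw [map_add, ha u hu, hb u hu, add_zero]
  smul_mem' := by
    intro c a ha u hu
    rw [map_smul, ha u hu, smul_zero]

theorem mem_orth {v : Fin n → ℝ} : v ∈ orth B U ↔ ∀ u ∈ U, B u v = 0 := Iff.rfl

theorem isCompl_orth (h : ∀ v ∈ U, (∀ u ∈ U, B u v = 0) → v = 0) : IsCompl U (orth B U) := by
  have hdis : U ⊓ orth B U = ⊥ := by
    rw [Submodule.eq_bot_iff]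
    intro v hv
    exact h v hv.1 hv.2
  refine ⟨disjoint_iff.2 hdis, ?_⟩
  rw [codisjoint_iff]
  let φ : (Fin n → ℝ) →ₗ[ℝ] (U →ₗ[ℝ] ℝ) :=
    { toFun := fun v => (LinearMap.flip B v).comp U.subtype
      map_add' := by
        intro a b
        ext u
        simp
      map_smul' := by
        intro c a
        ext u
        simp }
  have hk : LinearMap.ker φ = orth B U := by
    ext v
    rw [LinearMap.mem_ker, mem_orth]
    constructor
    · intro h u hu
      exact LinearMap.congr_fun h ⟨u, hu⟩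
    · intro h
      ext u
      exact h u.1 u.2
  have h1 := LinearMap.finrank_range_add_finrank_ker φ
  rw [hk] at h1
  have h2 : finrank ℝ (LinearMap.range φ) ≤ finrank ℝ U := by
    refine (Submodule.finrank_le _).trans ?_
    rw [Subspace.dual_finrank_eq]
  apply Submodule.eq_top_of_finrank_eq
  have h3 := Submodule.finrank_sup_add_finrank_inf_eq U (orth B U)
  rw [hdis, finrank_bot, add_zero] at h3
  have h4 := Submodule.finrank_le (U ⊔ orth B U)
  omega

/-- there is an orthogonal projection -/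
theorem exists_proj (h : ∀ v ∈ U, (∀ u ∈ U, B u v = 0) → v = 0) :
    ∃ p : (Fin n → ℝ) →ₗ[ℝ] U, (∀ u : U, p (u : Fin n → ℝ) = u) ∧
      (∀ v, (∀ u ∈ U, B u v = 0) → p v = 0) ∧ ∀ v, ∀ u ∈ U, B u (v - (p v : Fin n → ℝ)) = 0 := by
  have hc := isCompl_orth B U h
  refine ⟨Submodule.projectionOnto U (orth B U) hc,
    fun u => Submodule.projectionOnto_apply_left hc u,
    fun v hv => Submodule.projectionOnto_apply_right hc ⟨v, hv⟩, ?_⟩
  intro v
  have hv : v ∈ U ⊔ orth B U := by rw [hc.sup_eq_top]; exact Submodule.mem_top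
  obtain ⟨a, ha, b, hb, rfl⟩ := Submodule.mem_sup.1 hv
  have e1 := Submodule.projectionOnto_apply_left hc ⟨a, ha⟩
  have e2 := Submodule.projectionOnto_apply_right hc ⟨b, hb⟩
  intro u hu
  have e3 : a + b - ((Submodule.projectionOnto U (orth B U) hc (a + b) : U) : Fin n → ℝ) = b := by
    rw [map_add]
    have e4 : Submodule.projectionOnto U (orth B U) hc b = 0 := e2
    have e5 : Submodule.projectionOnto U (orth B U) hc a = ⟨a, ha⟩ := e1
    rw [e4, e5, add_zero]
    simp
  rw [e3]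
  exact hb u hu

end proj

variable {n N : ℕ} (X : Multi n N)

theorem cj_eqM (v : Fin n → ℂ) : cj v = oR (re v) + (-Complex.I) • oR (im v) := by
  funext i
  simp only [cj, oR, re, im, Pi.add_apply, Pi.smul_apply, smul_eq_mul]
  apply Complex.ext <;> simp

theorem bil_omegaM (i : Fin N) :
    bilR X.B (re (X.ω i)) (re (X.ω i)) = bilR X.B (im (X.ω i)) (im (X.ω i)) ∧
    bilR X.B (re (X.ω i)) (im (X.ω i)) = 0 ∧ 0 < bilR X.B (re (X.ω i)) (re (X.ω i)) := by
  have h1 := X.iso i
  have h2 := X.pos i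
  have h3 : bil X.B (X.ω i) (X.ω i) = ((bilR X.B (re (X.ω i)) (re (X.ω i)) -
      bilR X.B (im (X.ω i)) (im (X.ω i)) : ℝ) : ℂ) +
      ((2 * bilR X.B (re (X.ω i)) (im (X.ω i)) : ℝ) : ℂ) * Complex.I := by
    conv_lhs => rw [eq_re_im (X.ω i)]
    rw [bil_add_left, bil_add_right, bil_add_right, bil_smul_left, bil_smul_right, bil_smul_left,
      bil_smul_right, bil_oR, bil_oR, bil_oR, bil_oR,
      bilR_symm X.B X.symm (im (X.ω i)) (re (X.ω i))]
    push_cast
    linear_combination (bilR X.B (im (X.ω i)) (im (X.ω i)) : ℂ) * Complex.I_mul_I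
  have h4 : bil X.B (X.ω i) (cj (X.ω i)) =
      ((bilR X.B (re (X.ω i)) (re (X.ω i)) + bilR X.B (im (X.ω i)) (im (X.ω i)) : ℝ) : ℂ) := by
    have e0 : bil X.B (X.ω i) (cj (X.ω i)) = bil X.B (oR (re (X.ω i)) +
        Complex.I • oR (im (X.ω i))) (oR (re (X.ω i)) + (-Complex.I) • oR (im (X.ω i))) := by
      rw [← cj_eqM, ← eq_re_im]
    rw [e0]
    rw [bil_add_left, bil_add_right, bil_add_right, bil_smul_left, bil_smul_right, bil_smul_left,
      bil_smul_right, bil_oR, bil_oR, bil_oR, bil_oR,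
      bilR_symm X.B X.symm (im (X.ω i)) (re (X.ω i))]
    push_cast
    linear_combination (-(bilR X.B (im (X.ω i)) (im (X.ω i)) : ℂ)) * Complex.I_mul_I
  rw [h3] at h1
  rw [h4] at h2
  have h5 := congrArg Complex.re h1
  have h6 := congrArg Complex.im h1
  simp only [Complex.add_re, Complex.ofReal_re, Complex.mul_re, Complex.ofReal_im, Complex.I_re,
    Complex.I_im, Complex.add_im, Complex.mul_im, Complex.zero_re, Complex.zero_im] at h5 h6
  rw [Complex.ofReal_re] at h2
  refine ⟨by linarith, by linarith, by linarith⟩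

theorem app_reM (P : Matrix (Fin n) (Fin n) ℚ) (v : Fin n → ℂ) (i : Fin n) :
    (app P v i).re = ∑ j, (P i j : ℝ) * re v j := by
  simp only [app, Complex.re_sum, re]
  refine Finset.sum_congr rfl fun j _ => ?_
  rw [Complex.mul_re]
  simp

theorem app_imM (P : Matrix (Fin n) (Fin n) ℚ) (v : Fin n → ℂ) (i : Fin n) :
    (app P v i).im = ∑ j, (P i j : ℝ) * im v j := by
  simp only [app, Complex.im_sum, im]
  refine Finset.sum_congr rfl fun j _ => ?_
  rw [Complex.mul_im]
  simp

theorem re_mem_UM (i : Fin N) : re (X.ω i) ∈ X.U i := by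
  refine ⟨fun a ha => by simp [re, X.ωblock i a ha], ?_⟩
  intro P _ c hc a
  rw [← app_reM, hc]
  simp [re]

theorem im_mem_UM (i : Fin N) : im (X.ω i) ∈ X.U i := by
  refine ⟨fun a ha => by simp [im, X.ωblock i a ha], ?_⟩
  intro P _ c hc a
  rw [← app_imM, hc]
  simp [im]

/-- negativity in a block -/
theorem neg_blk (i : Fin N) (w : Fin n → ℝ) (hb : ∀ a, X.c a ≠ i → w a = 0) (hw : w ≠ 0)
    (h1 : bilR X.B w (re (X.ω i)) = 0) (h2 : bilR X.B w (im (X.ω i)) = 0) :
    bilR X.B w w < 0 := by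
  have e : (fun a => (w a : ℂ)) = oR w := rfl
  have h3 := X.neg i w hb hw (by
    rw [e, eq_re_im (X.ω i), bil_add_right, bil_smul_right, bil_oR, bil_oR, h1, h2]
    simp)
  rw [e, bil_oR] at h3
  simpa using h3

/-- orthogonality of different blocks -/
theorem blk_orth {i : Fin N} {u v : Fin n → ℝ} (hu : ∀ a, X.c a ≠ i → u a = 0)
    (hv : ∀ a, X.c a = i → v a = 0) : bilR X.B u v = 0 := by
  rw [bilR_apply]
  refine Finset.sum_eq_zero fun a _ => Finset.sum_eq_zero fun b _ => ?_
  by_cases ha : X.c a = i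
  · by_cases hb : X.c b = i
    · rw [hv b hb, mul_zero]
    · rw [X.Bblock a b (by rw [ha]; exact fun h => hb h.symm)]
      simp
  · rw [hu a ha]
    simp

theorem U_orth {i j : Fin N} (hij : i ≠ j) {u v : Fin n → ℝ} (hu : u ∈ X.U i) (hv : v ∈ X.U j) :
    bilR X.B u v = 0 :=
  blk_orth X hu.1 (fun a ha => hv.1 a (by rw [ha]; exact hij))

theorem U_nondeg (i : Fin N) : ∀ v ∈ X.U i, (∀ u ∈ X.U i, bilR X.B u v = 0) → v = 0 := by
  intro v hv h
  by_contra h0
  have h1 := neg_blk X i v hv.1 h0 (by rw [bilR_symm X.B X.symm]; exact h _ (re_mem_UM X i))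
    (by rw [bilR_symm X.B X.symm]; exact h _ (im_mem_UM X i))
  rw [h v hv] at h1
  exact lt_irrefl _ h1

/-- the projection to `U_i` -/
def pr (i : Fin N) : (Fin n → ℝ) →ₗ[ℝ] X.U i := (exists_proj (bilR X.B) (X.U i) (U_nondeg X i)).choose

theorem pr_self (i : Fin N) (u : X.U i) : pr X i (u : Fin n → ℝ) = u :=
  (exists_proj (bilR X.B) (X.U i) (U_nondeg X i)).choose_spec.1 u

theorem pr_zero (i : Fin N) {v : Fin n → ℝ} (hv : ∀ u ∈ X.U i, bilR X.B u v = 0) : pr X i v = 0 :=
  (exists_proj (bilR X.B) (X.U i) (U_nondeg X i)).choose_spec.2.1 v hv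

theorem pr_dec (i : Fin N) (v : Fin n → ℝ) : ∀ u ∈ X.U i,
    bilR X.B u (v - (pr X i v : Fin n → ℝ)) = 0 :=
  (exists_proj (bilR X.B) (X.U i) (U_nondeg X i)).choose_spec.2.2 v

theorem pr_ne {i j : Fin N} (hij : i ≠ j) (u : X.U i) : pr X j (u : Fin n → ℝ) = 0 :=
  pr_zero X j fun v hv => U_orth X (Ne.symm hij) hv u.2

/-- vectors orthogonal to all the `U_i` -/
def WM : Submodule ℝ (Fin n → ℝ) where
  carrier := {v | ∀ i, ∀ u ∈ X.U i, bilR X.B u v = 0}
  zero_mem' := by
    intro i u _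
    simp
  add_mem' := by
    intro a b ha hb i u hu
    rw [map_add, ha i u hu, hb i u hu, add_zero]
  smul_mem' := by
    intro c a ha i u hu
    rw [map_smul, ha i u hu, smul_zero]

/-- the block component of a vector -/
def bc (i : Fin N) (v : Fin n → ℝ) : Fin n → ℝ := fun a => if X.c a = i then v a else 0

theorem sum_bc (v : Fin n → ℝ) : v = ∑ i, bc X i v := by
  funext a
  rw [Finset.sum_apply]
  simp [bc]

theorem bilR_bc (i : Fin N) {u : Fin n → ℝ} (hu : ∀ a, X.c a ≠ i → u a = 0) (v : Fin n → ℝ) :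
    bilR X.B u v = bilR X.B u (bc X i v) := by
  have h : bilR X.B u (v - bc X i v) = 0 := by
    refine blk_orth X hu fun a ha => ?_
    simp [bc, ha]
  rw [map_sub, sub_eq_zero] at h
  exact h

theorem WM_neg {v : Fin n → ℝ} (hv : v ∈ WM X) (h0 : v ≠ 0) : bilR X.B v v < 0 := by
  have hbc : ∀ i, ∀ a, X.c a ≠ i → bc X i v a = 0 := by
    intro i a ha
    simp [bc, ha]
  have h1 : ∀ i, bc X i v ≠ 0 → bilR X.B (bc X i v) (bc X i v) < 0 := by
    intro i hi
    refine neg_blk X i _ (hbc i) hi ?_ ?_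
    · rw [bilR_symm X.B X.symm, ← bilR_bc X i (re_mem_UM X i).1]
      exact hv i _ (re_mem_UM X i)
    · rw [bilR_symm X.B X.symm, ← bilR_bc X i (im_mem_UM X i).1]
      exact hv i _ (im_mem_UM X i)
  have h2 : bilR X.B v v = ∑ i, bilR X.B (bc X i v) (bc X i v) := by
    have e1 : bilR X.B v v = bilR X.B (∑ i, bc X i v) v := by rw [← sum_bc X v]
    rw [e1, map_sum, LinearMap.sum_apply]
    exact Finset.sum_congr rfl fun i _ => bilR_bc X i (hbc i) v
  rw [h2]
  obtain ⟨i, hi⟩ : ∃ i, bc X i v ≠ 0 := by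
    by_contra hc
    push Not at hc
    apply h0
    rw [sum_bc X v]
    exact Finset.sum_eq_zero fun i _ => hc i
  refine Finset.sum_neg' (fun j _ => ?_) ⟨i, Finset.mem_univ i, h1 i hi⟩
  by_cases hj : bc X j v = 0
  · rw [hj]
    simp
  · exact (h1 j hj).le

theorem dec_WM (v : Fin n → ℝ) : v - ∑ i, (pr X i v : Fin n → ℝ) ∈ WM X := by
  intro i u hu
  have h1 : v - ∑ j, (pr X j v : Fin n → ℝ) = (v - (pr X i v : Fin n → ℝ)) -
      ∑ j ∈ univ.erase i, (pr X j v : Fin n → ℝ) := by
    rw [← Finset.add_sum_erase _ _ (Finset.mem_univ i)]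
    abel
  rw [h1, map_sub, pr_dec X i v u hu, map_sum, zero_sub, neg_eq_zero]
  refine Finset.sum_eq_zero fun j hj => ?_
  exact U_orth X (Finset.ne_of_mem_erase hj).symm hu (pr X j v).2

/-- extension of a family of operators by zero on `W` -/
def exM (y : ∀ i, End ℝ (X.U i)) : End ℝ (Fin n → ℝ) :=
  ∑ i, (X.U i).subtype.comp ((y i).comp (pr X i))

theorem exM_apply (y : ∀ i, End ℝ (X.U i)) (v : Fin n → ℝ) :
    exM X y v = ∑ i, (y i (pr X i v) : Fin n → ℝ) := by
  rw [exM, LinearMap.sum_apply]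
  rfl

theorem exM_U (y : ∀ i, End ℝ (X.U i)) (i : Fin N) (u : X.U i) :
    exM X y (u : Fin n → ℝ) = (y i u : Fin n → ℝ) := by
  rw [exM_apply, Finset.sum_eq_single i]
  · rw [pr_self]
  · intro j _ hj
    rw [pr_ne X (Ne.symm hj), map_zero]
    rfl
  · intro h
    exact absurd (Finset.mem_univ _) h

theorem exM_W (y : ∀ i, End ℝ (X.U i)) {w : Fin n → ℝ} (hw : w ∈ WM X) : exM X y w = 0 := by
  rw [exM_apply]
  refine Finset.sum_eq_zero fun i _ => ?_
  rw [pr_zero X i (hw i), map_zero]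
  rfl

theorem extM {y z : End ℝ (Fin n → ℝ)}
    (h1 : ∀ i, ∀ u : X.U i, y (u : Fin n → ℝ) = z (u : Fin n → ℝ))
    (h2 : ∀ w ∈ WM X, y w = z w) : y = z := by
  apply LinearMap.ext
  intro v
  have e : v = ∑ i, (pr X i v : Fin n → ℝ) + (v - ∑ i, (pr X i v : Fin n → ℝ)) := by abel
  rw [e, map_add, map_add, map_sum, map_sum, h2 _ (dec_WM X v)]
  congr 1
  exact Finset.sum_congr rfl fun i _ => h1 i _

end

end Pool.Agent.V5helper10.DRB
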